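import Mathlib

/-!
# Independence of the digits of linear functions modulo a power of two
-/

set_option autoImplicit false

open Finset

namespace Pool.Agent.TH706.ST

open Classical in
/-- If each of the bits in `J` can be flipped without changing the other ones then they are
independent. -/
theorem flip_count {A β : Type} [Fintype A] (bit : β → A → Bool)
    (J : Finset β) (v : β → Bool) :
    (∀ j ∈ J, ∃ σ : A → A, Function.Involutive σ ∧ (∀ a, bit j (σ a) = !bit j a) ∧
      ∀ i ∈ J, i ≠ j → ∀ a, bit i (σ a) = bit i a) →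
    (univ.filter (fun a => ∀ j ∈ J, bit j a = v j)).card * 2 ^ J.card = Fintype.card A := by
  induction J using Finset.induction_on with
  | empty => intro _; simp
  | insert i J hi ih =>
    intro h
    have h1 := ih (fun j hj => by
      obtain ⟨σ, s1, s2, s3⟩ := h j (mem_insert_of_mem hj)
      exact ⟨σ, s1, s2, fun k hk => s3 k (mem_insert_of_mem hk)⟩)
    obtain ⟨σ, s1, s2, s3⟩ := h i (mem_insert_self _ _)
    have e1 : (univ.filter (fun a => ∀ j ∈ insert i J, bit j a = v j)) =
        (univ.filter (fun a => ∀ j ∈ J, bit j a = v j)).filter (fun a => bit i a = v i) := by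
      ext a
      simp only [mem_filter, mem_univ, true_and, forall_mem_insert]
      exact and_comm
    have e2 : ((univ.filter (fun a => ∀ j ∈ J, bit j a = v j)).filter
        (fun a => bit i a = v i)).card =
        ((univ.filter (fun a => ∀ j ∈ J, bit j a = v j)).filter
        (fun a => ¬ bit i a = v i)).card := by
      refine card_bij' (fun a _ => σ a) (fun a _ => σ a) ?_ ?_ (fun a _ => s1 a)
        (fun a _ => s1 a)
      · intro a ha
        simp only [mem_filter, mem_univ, true_and] at ha ⊢
        refine ⟨fun j hj => ?_, ?_⟩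
        · rw [s3 j (mem_insert_of_mem hj) (fun e => hi (e ▸ hj)), ha.1 j hj]
        · rw [s2, ha.2]
          cases v i <;> simp
      · intro a ha
        simp only [mem_filter, mem_univ, true_and] at ha ⊢
        refine ⟨fun j hj => ?_, ?_⟩
        · rw [s3 j (mem_insert_of_mem hj) (fun e => hi (e ▸ hj)), ha.1 j hj]
        · rw [s2]
          have := ha.2
          revert this
          cases bit i a <;> cases v i <;> simp
    have e3 := card_filter_add_card_filter_not
      (s := univ.filter (fun a => ∀ j ∈ J, bit j a = v j)) (fun a => bit i a = v i)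
    rw [e1, card_insert_of_notMem hi, pow_succ, ← h1, ← e3, ← e2]
    ring

theorem testBit_add_two_pow {w j : ℕ} (h : w.testBit j = false) (i : ℕ) :
    (w + 2 ^ j).testBit i = xor (w.testBit i) (decide (j = i)) := by
  obtain ⟨q, hq⟩ : ∃ q, q = w / 2 ^ j / 2 := ⟨_, rfl⟩
  obtain ⟨lo, hlo⟩ : ∃ lo, lo = w % 2 ^ j := ⟨_, rfl⟩
  have h0 : w / 2 ^ j % 2 = 0 := by
    have h1 := Nat.testBit_eq_decide_div_mod_eq (x := w) (i := j)
    rw [h] at h1
    have h2 : ¬ (w / 2 ^ j % 2 = 1) := by
      intro h3
      rw [h3] at h1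
      simp at h1
    omega
  have hw : w = 2 ^ j * (2 * q) + lo := by
    have h1 := Nat.div_add_mod w (2 ^ j)
    have h2 : w / 2 ^ j = 2 * q := by omega
    rw [h2] at h1
    rw [hlo]
    exact h1.symm
  have hlt : lo < 2 ^ j := by rw [hlo]; exact Nat.mod_lt _ (by positivity)
  have hw' : w + 2 ^ j = 2 ^ j * (2 * q + 1) + lo := by
    rw [hw]; ring
  rw [hw', hw, Nat.testBit_two_pow_mul_add _ hlt, Nat.testBit_two_pow_mul_add _ hlt]
  split_ifs with hij
  · have : j ≠ i := by omega
    simp [this]
  · rcases Nat.eq_zero_or_pos (i - j) with hk | hk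
    · have : j = i := by omega
      rw [hk]
      simp [this]
    · obtain ⟨k, hk'⟩ : ∃ k, i - j = k + 1 := ⟨i - j - 1, by omega⟩
      have hne : j ≠ i := by omega
      rw [hk', Nat.testBit_succ, Nat.testBit_succ]
      have e1 : (2 * q + 1) / 2 = q := by omega
      have e2 : (2 * q) / 2 = q := by omega
      rw [e1, e2]
      simp [hne]

theorem xor_two_pow_of_false {w j : ℕ} (h : w.testBit j = false) : w ^^^ 2 ^ j = w + 2 ^ j := by
  apply Nat.eq_of_testBit_eq
  intro i
  rw [testBit_add_two_pow h, Nat.testBit_xor, Nat.testBit_two_pow]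

theorem xor_two_pow_of_true {w j : ℕ} (h : w.testBit j = true) :
    (w ^^^ 2 ^ j) + 2 ^ j = w := by
  have h1 : (w ^^^ 2 ^ j).testBit j = false := by
    rw [Nat.testBit_xor, h, Nat.testBit_two_pow]
    simp
  have h2 := xor_two_pow_of_false h1
  rw [Nat.xor_assoc, Nat.xor_self, Nat.xor_zero] at h2
  exact h2.symm

variable {n : ℕ}

/-- The digit `j` of a residue. -/
def dig (u : ZMod (2 ^ n)) (j : ℕ) : Bool := u.val.testBit j

/-- Flipping a digit. -/
theorem dig_flip (u : ZMod (2 ^ n)) {j : ℕ} (hj : j < n) (i : ℕ) :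
    dig (if dig u j = true then u - 2 ^ j else u + 2 ^ j) i = xor (dig u i) (decide (j = i)) := by
  have hN : NeZero (2 ^ n) := ⟨by positivity⟩
  have hu : u.val < 2 ^ n := ZMod.val_lt u
  have hj' : 2 ^ j < 2 ^ n := Nat.pow_lt_pow_right (by norm_num) hj
  have hx : u.val ^^^ 2 ^ j < 2 ^ n := Nat.xor_lt_two_pow hu hj'
  have key : (if dig u j = true then u - 2 ^ j else u + 2 ^ j) =
      ((u.val ^^^ 2 ^ j : ℕ) : ZMod (2 ^ n)) := by
    unfold dig
    split_ifs with h
    · have h1 := xor_two_pow_of_true h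
      have h2 : (((u.val ^^^ 2 ^ j) + 2 ^ j : ℕ) : ZMod (2 ^ n)) = u := by
        rw [h1]
        exact ZMod.natCast_zmod_val u
      rw [Nat.cast_add, Nat.cast_pow, Nat.cast_ofNat] at h2
      exact sub_eq_iff_eq_add.2 h2.symm
    · rw [Bool.not_eq_true] at h
      rw [xor_two_pow_of_false h]
      push_cast
      rw [ZMod.natCast_zmod_val]
  rw [key]
  unfold dig
  rw [ZMod.val_natCast_of_lt hx, Nat.testBit_xor, Nat.testBit_two_pow]

open Classical in
/-- The digits of linear functions. -/
theorem hom_count {G τ : Type} [AddCommGroup G] [Fintype G]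
    (W : τ → G →+ ZMod (2 ^ n)) (J : Finset (τ × ℕ)) (hJ : ∀ p ∈ J, p.2 < n)
    (hc : ∀ p ∈ J, ∃ c, W p.1 c = 2 ^ p.2 ∧ ∀ p' ∈ J, p'.1 ≠ p.1 → W p'.1 c = 0)
    (v : τ × ℕ → Bool) :
    (univ.filter (fun g => ∀ p ∈ J, dig (W p.1 g) p.2 = v p)).card * 2 ^ J.card =
      Fintype.card G := by
  obtain ⟨bit, hbit⟩ : ∃ bit : τ × ℕ → G → Bool, ∀ p g, bit p g = dig (W p.1 g) p.2 :=
    ⟨_, fun _ _ => rfl⟩
  have key := flip_count bit J v ?_
  · simp only [hbit] at key
    exact key
  rintro ⟨t, j⟩ hp
  obtain ⟨c, hc1, hc2⟩ : ∃ c, W t c = 2 ^ j ∧ ∀ p' ∈ J, p'.1 ≠ t → W p'.1 c = 0 := hc _ hp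
  have hjn : j < n := hJ _ hp
  have hW : ∀ g, W t (if dig (W t g) j = true then g - c else g + c) =
      if dig (W t g) j = true then W t g - 2 ^ j else W t g + 2 ^ j := by
    intro g
    split_ifs
    · rw [map_sub, hc1]
    · rw [map_add, hc1]
  have hd1 : ∀ g, dig (W t (if dig (W t g) j = true then g - c else g + c)) j =
      !dig (W t g) j := by
    intro g
    rw [hW, dig_flip _ hjn]
    simp
  refine ⟨fun g => if dig (W t g) j = true then g - c else g + c, ?_, ?_, ?_⟩
  · intro g
    simp only [hd1]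
    cases hd : dig (W t g) j
    · simp
    · simp
  · intro g
    rw [hbit, hbit]
    exact hd1 g
  · rintro ⟨t', i⟩ hi hne g
    rw [hbit, hbit]
    by_cases ht : t' = t
    · subst ht
      have : j ≠ i := fun e => hne (by rw [e])
      change dig (W t' (if dig (W t' g) j = true then g - c else g + c)) i = dig (W t' g) i
      rw [hW, dig_flip _ hjn]
      simp [this]
    · have h0 : W t' c = 0 := hc2 _ hi ht
      change dig (W t' (if dig (W t g) j = true then g - c else g + c)) i = dig (W t' g) i
      have h1 : W t' (if dig (W t g) j = true then g - c else g + c) = W t' g := by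
        split_ifs
        · rw [map_sub, h0, sub_zero]
        · rw [map_add, h0, add_zero]
      rw [h1]

end Pool.Agent.TH706.ST
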