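import Mathlib

/-!
# Counting the models of a chain of 2-clauses

The states `s 0, ..., s k` and the free variables `z 0, ..., z (k - 1)` satisfy `s i → s (i + 1)`
and `s (i + 1) → z i`, and `s (i + 1) → s i` if the digit `d i` is zero. There are `∑ d i * 2 ^ i`
solutions with `s 0 = 0` and `s k = 1`, and one with `s 0 = 1`.
-/

set_option autoImplicit false

open Finset

namespace Pool.Agent.TH706.ST

/-- One step of the chain. -/
def Step (δ a z b : Bool) : Prop :=
  (a = true → b = true) ∧ (b = true → z = true) ∧ (δ = false → b = true → a = true)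

instance (δ a z b : Bool) : Decidable (Step δ a z b) := by unfold Step; infer_instance

/-- The solutions with first state `σ` and last state `τ`. -/
abbrev ChSol (k : ℕ) (d : Fin k → Bool) (σ τ : Bool) : Type :=
  {p : (Fin (k + 1) → Bool) × (Fin k → Bool) // p.1 0 = σ ∧ p.1 (Fin.last k) = τ ∧
    ∀ i : Fin k, Step (d i) (p.1 i.castSucc) (p.2 i) (p.1 i.succ)}

theorem sig_ext {k : ℕ} {d : Fin k → Bool} {σ τ δ : Bool}
    (x y : Σ τ' : Bool, ChSol k d σ τ' × {z : Bool // Step δ τ' z τ})
    (h1 : x.1 = y.1) (h2 : x.2.1.1 = y.2.1.1) (h3 : x.2.2.1 = y.2.2.1) : x = y := by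
  obtain ⟨a, ⟨p, hp⟩, ⟨z, hz⟩⟩ := x
  obtain ⟨b, ⟨p', hp'⟩, ⟨z', hz'⟩⟩ := y
  simp only at h1 h2 h3
  subst h1
  subst h2
  subst h3
  rfl

/-- Splitting off the last step. -/
def chEquiv (k : ℕ) (d : Fin (k + 1) → Bool) (σ τ : Bool) :
    ChSol (k + 1) d σ τ ≃
      Σ τ' : Bool, ChSol k (fun i => d i.castSucc) σ τ' × {z : Bool // Step (d (Fin.last k)) τ' z τ} where
  toFun p := ⟨p.1.1 (Fin.last k).castSucc,
    ⟨(fun i => p.1.1 i.castSucc, fun i => p.1.2 i.castSucc), p.2.1, rfl,
      fun i => p.2.2.2 i.castSucc⟩,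
    ⟨p.1.2 (Fin.last k), by
      have := p.2.2.2 (Fin.last k)
      rwa [Fin.succ_last, p.2.2.1] at this⟩⟩
  invFun q := ⟨(Fin.snoc q.2.1.1.1 τ, Fin.snoc q.2.1.1.2 q.2.2.1), by
      have : (0 : Fin (k + 2)) = (0 : Fin (k + 1)).castSucc := rfl
      simp only [this, Fin.snoc_castSucc]
      exact q.2.1.2.1, by simp, by
      intro i
      refine Fin.lastCases ?_ (fun i => ?_) i
      · simp only [Fin.snoc_last, Fin.succ_last, Fin.snoc_castSucc]
        rw [q.2.1.2.2.1]
        exact q.2.2.2
      · have h := q.2.1.2.2.2 i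
        simp only [Fin.snoc_castSucc, Fin.succ_castSucc]
        exact h⟩
  left_inv p := by
    obtain ⟨⟨s, z⟩, h0, h1, h2⟩ := p
    subst h1
    apply Subtype.ext
    apply Prod.ext
    · funext i
      refine Fin.lastCases ?_ (fun i => ?_) i
      · simp
      · simp
    · funext i
      refine Fin.lastCases ?_ (fun i => ?_) i
      · simp
      · simp
  right_inv q := by
    obtain ⟨τ', ⟨⟨s, z⟩, h0, h1, h2⟩, z', hz⟩ := q
    subst h1
    apply sig_ext
    · simp
    · simp
    · simp

/-- The number of solutions. -/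
def chN (k : ℕ) (d : Fin k → Bool) (σ τ : Bool) : ℕ := Fintype.card (ChSol k d σ τ)

theorem chN_zero (d : Fin 0 → Bool) (σ τ : Bool) : chN 0 d σ τ = if σ = τ then 1 else 0 := by
  unfold chN
  split_ifs with h
  · subst h
    rw [Fintype.card_eq_one_iff]
    refine ⟨⟨(fun _ => σ, fun i => i.elim0), rfl, rfl, fun i => i.elim0⟩, ?_⟩
    rintro ⟨⟨s, z⟩, h0, h1, h2⟩
    apply Subtype.ext
    apply Prod.ext
    · funext i
      have : i = 0 := Fin.fin_one_eq_zero i
      rw [this]
      exact h0
    · funext i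
      exact i.elim0
  · rw [Fintype.card_eq_zero_iff]
    refine ⟨?_⟩
    rintro ⟨⟨s, z⟩, h0, h1, h2⟩
    apply h
    rw [← h0, ← h1]
    rfl

theorem chN_succ (k : ℕ) (d : Fin (k + 1) → Bool) (σ τ : Bool) : chN (k + 1) d σ τ =
    ∑ τ', chN k (fun i => d i.castSucc) σ τ' *
      Fintype.card {z : Bool // Step (d (Fin.last k)) τ' z τ} := by
  unfold chN
  rw [Fintype.card_congr (chEquiv k d σ τ), Fintype.card_sigma]
  refine sum_congr rfl (fun τ' _ => ?_)
  rw [Fintype.card_prod]

theorem step_ff (δ : Bool) : Fintype.card {z : Bool // Step δ false z false} = 2 := by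
  cases δ <;> decide

theorem step_ft (δ : Bool) : Fintype.card {z : Bool // Step δ false z true} =
    if δ = true then 1 else 0 := by
  cases δ <;> decide

theorem step_tf (δ : Bool) : Fintype.card {z : Bool // Step δ true z false} = 0 := by
  cases δ <;> decide

theorem step_tt (δ : Bool) : Fintype.card {z : Bool // Step δ true z true} = 1 := by
  cases δ <;> decide

theorem chN_val (k : ℕ) : ∀ d : Fin k → Bool, chN k d true false = 0 ∧ chN k d true true = 1 ∧
    chN k d false false = 2 ^ k ∧
    chN k d false true = ∑ i, if d i = true then 2 ^ i.val else 0 := by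
  induction k with
  | zero => intro d; simp [chN_zero]
  | succ k ih =>
    intro d
    obtain ⟨h1, h2, h3, h4⟩ := ih (fun i => d i.castSucc)
    simp only [chN_succ, Fintype.univ_bool, sum_insert (show (true : Bool) ∉ ({false} : Finset Bool) by decide), sum_singleton, h1, h2, h3, h4,
      step_ff, step_ft, step_tf, step_tt, Fin.sum_univ_castSucc]
    refine ⟨by simp, by simp, by simp [pow_succ], ?_⟩
    simp only [Fin.val_castSucc, Fin.val_last, mul_one, mul_ite, mul_zero]

theorem sum_digits (v k : ℕ) : (∑ i : Fin k, if v.testBit i.val = true then 2 ^ i.val else 0) =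
    v % 2 ^ k := by
  induction k with
  | zero => simp [Nat.mod_one]
  | succ k ih =>
    rw [Fin.sum_univ_castSucc]
    simp only [Fin.val_castSucc, Fin.val_last]
    rw [ih, Nat.mod_pow_succ, Nat.testBit_eq_decide_div_mod_eq]
    have h : v / 2 ^ k % 2 = 0 ∨ v / 2 ^ k % 2 = 1 := Nat.mod_two_eq_zero_or_one _
    rcases h with h | h <;> simp [h]

end Pool.Agent.TH706.ST
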