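import Pool.Agent.TH706.ST.Core

/-!
# Formulas that express sparse systems, and their satisfying assignments
-/

set_option autoImplicit false

open Finset

namespace Pool.Agent.TH706.ST

open Pool.Agent.W896.MO

/-- The bits of a 3-CNF formula with `M` clauses, in which the names of the variables are words of
`ℓ` bits: the bits `(c, p, some j)` form the name of the variable in position `p` of the clause
`c`, and the bit `(c, p, none)` is the sign of this literal. -/
abbrev Idx (M ℓ : ℕ) : Type := Fin M × Fin 3 × Option (Fin ℓ)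

/-- The name of the variable in position `p` of the clause `c`. -/
def name {M ℓ : ℕ} (w : Idx M ℓ → Bool) (c : Fin M) (p : Fin 3) : Fin ℓ → Bool :=
  fun j => w (c, p, some j)

/-- The assignment `α` satisfies the formula `w`. -/
def Sat {M ℓ : ℕ} (w : Idx M ℓ → Bool) (α : (Fin ℓ → Bool) → Bool) : Prop :=
  ∀ c, ∃ p, α (name w c p) = w (c, p, none)

/-- The variable `v` occurs in the formula `w`. -/
def Occurs {M ℓ : ℕ} (w : Idx M ℓ → Bool) (v : Fin ℓ → Bool) : Prop := ∃ c p, name w c p = v

/-- The formula has exactly one satisfying assignment of the variables that occur. -/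
def UniqueSat {M ℓ : ℕ} (w : Idx M ℓ → Bool) : Prop :=
  ∃ α, Sat w α ∧ ∀ β, Sat w β → ∀ v, Occurs w v → β v = α v

/-- With at most `T` reads and writes the program finds a satisfying assignment of `w`: it writes
a value for each variable that occurs in `w`, always the same one, and these values satisfy `w`
(what it writes for other names is ignored). -/
def Finds {M ℓ : ℕ} (P : Prog (Idx M ℓ) (Fin ℓ → Bool) Bool) (w : Idx M ℓ → Bool) (T : ℕ) :
    Prop :=
  ∃ l, P.Runs w P.start [] l ∧ l.length ≤ T ∧ ∃ α, Sat w α ∧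
    (∀ v b, Occurs w v → .inr (v, b) ∈ l → b = α v) ∧ ∀ v, Occurs w v → .inr (v, α v) ∈ l

/-! ### The clauses -/

variable {n : ℕ}

/-- The variables: the unknowns, and the partial sums of the equations. -/
abbrev Vr (n : ℕ) : Type := Fin n ⊕ (Row n × Fin 8)

/-- The clauses: for each equation one that fixes its value, and four for each partial sum. -/
abbrev Cl (n : ℕ) : Type := Row n × Option (Fin 8 × Fin 4)

/-- The partial sum before the term `s`. -/
def prev (r : Row n) (s : Fin 8) : Vr n := if s = 0 then .inl r.2 else .inr (r, s - 1)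

/-- The triples of odd weight. -/
def tri : Fin 4 → Fin 3 → Bool :=
  ![![true, false, false], ![false, true, false], ![false, false, true], ![true, true, true]]

/-- The literals of the clauses. -/
def cl (h : Sys n) (x : Row n → Bool) : Cl n → Fin 3 → Vr n × Bool
  | (r, none), _ => (.inr (r, 7), x r)
  | (r, some (s, c)), p => (match p with
      | 0 => .inr (r, s)
      | 1 => prev r s
      | 2 => .inl (h r s), !(tri c p))

theorem exists_three (Q : Fin 3 → Prop) : (∃ p, Q p) ↔ Q 0 ∨ Q 1 ∨ Q 2 := by
  constructor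
  · rintro ⟨p, hp⟩
    fin_cases p
    · exact Or.inl hp
    · exact Or.inr (Or.inl hp)
    · exact Or.inr (Or.inr hp)
  · rintro (h | h | h)
    exacts [⟨0, h⟩, ⟨1, h⟩, ⟨2, h⟩]

theorem xor_clauses (z u v : Bool) :
    (∀ c : Fin 4, z = !(tri c 0) ∨ u = !(tri c 1) ∨ v = !(tri c 2)) ↔ z = xor u v := by
  revert z u v
  decide

/-- The Boolean value of an element of the field. -/
def val (a : ZMod 2) : Bool := decide (a = 1)

theorem val_add : ∀ a b : ZMod 2, val (a + b) = xor (val a) (val b) := by decide

theorem val_inj : ∀ a b : ZMod 2, val a = val b → a = b := by decide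

theorem cl_iff (h : Sys n) (x : Row n → Bool) (β : Vr n → Bool) :
    (∀ c, ∃ p, β (cl h x c p).1 = (cl h x c p).2) ↔
      (∀ r s, β (.inr (r, s)) = xor (β (prev r s)) (β (.inl (h r s)))) ∧
        ∀ r, β (.inr (r, 7)) = x r := by
  constructor
  · intro H
    constructor
    · intro r s
      rw [← xor_clauses]
      intro c
      exact (exists_three _).1 (H (r, some (s, c)))
    · intro r
      obtain ⟨p, hp⟩ := H (r, none)
      exact hp
  · rintro ⟨H1, H2⟩ ⟨r, sc⟩
    match sc with
    | none => exact ⟨0, H2 r⟩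
    | some (s, c) => exact (exists_three _).2 ((xor_clauses _ _ _).2 (H1 r s) c)

/-- The partial sums. -/
def ps (h : Sys n) (y : Fin n → ZMod 2) (r : Row n) : ℕ → ZMod 2
  | 0 => y r.2 + y (h r 0)
  | k + 1 => ps h y r k + y (h r (Fin.ofNat 8 (k + 1)))

theorem ps_seven (h : Sys n) (y : Fin n → ZMod 2) (r : Row n) : ps h y r 7 = lin h r y := by
  rw [lin_apply, Fin.sum_univ_eight]
  simp only [ps]
  have e1 : (Fin.ofNat 8 (0 + 1)) = 1 := rfl
  have e2 : (Fin.ofNat 8 (1 + 1)) = 2 := rfl
  have e3 : (Fin.ofNat 8 (2 + 1)) = 3 := rfl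
  have e4 : (Fin.ofNat 8 (3 + 1)) = 4 := rfl
  have e5 : (Fin.ofNat 8 (4 + 1)) = 5 := rfl
  have e6 : (Fin.ofNat 8 (5 + 1)) = 6 := rfl
  have e7 : (Fin.ofNat 8 (6 + 1)) = 7 := rfl
  rw [e1, e2, e3, e4, e5, e6, e7]
  ring

theorem pred_val : ∀ s : Fin 8, s ≠ 0 → s.val = (s - 1).val + 1 := by decide

/-- The satisfying assignment that belongs to the solution `y`. -/
def sol (h : Sys n) (y : Fin n → ZMod 2) : Vr n → Bool
  | .inl j => val (y j)
  | .inr (r, s) => val (ps h y r s.val)

theorem sol_step (h : Sys n) (y : Fin n → ZMod 2) (r : Row n) (s : Fin 8) :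
    sol h y (.inr (r, s)) = xor (sol h y (prev r s)) (sol h y (.inl (h r s))) := by
  unfold prev
  by_cases hs : s = 0
  · rw [if_pos hs, hs]
    change val (ps h y r 0) = xor (val (y r.2)) (val (y (h r 0)))
    rw [← val_add]
    rfl
  · rw [if_neg hs]
    change val (ps h y r s.val) = xor (val (ps h y r (s - 1).val)) (val (y (h r s)))
    have h1 : s.val = (s - 1).val + 1 := by revert s; decide
    have h2 : Fin.ofNat 8 ((s - 1).val + 1) = s := by revert s; decide
    rw [← val_add, h1]
    change val (ps h y r (s - 1).val + y (h r (Fin.ofNat 8 ((s - 1).val + 1)))) = _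
    rw [h2]

theorem unique_sol {h : Sys n} (hI : Inj h) (y : Fin n → ZMod 2) (β : Vr n → Bool)
    (H1 : ∀ r s, β (.inr (r, s)) = xor (β (prev r s)) (β (.inl (h r s))))
    (H2 : ∀ r, β (.inr (r, 7)) = val (lin h r y)) : β = sol h y := by
  obtain ⟨y', hy'⟩ : ∃ y' : Fin n → ZMod 2, ∀ j, y' j = if β (.inl j) then 1 else 0 :=
    ⟨_, fun _ => rfl⟩
  have hv : ∀ j, β (.inl j) = val (y' j) := by
    intro j
    rw [hy']
    cases β (.inl j)
    · rfl
    · rfl
  have hps : ∀ (k : ℕ) (r : Row n) (s : Fin 8), s.val = k → β (.inr (r, s)) =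
      val (ps h y' r k) := by
    intro k
    induction k with
    | zero =>
      intro r s hs
      have hs0 : s = 0 := Fin.ext hs
      subst hs0
      rw [H1]
      unfold prev
      rw [if_pos rfl, hv, hv, ← val_add]
      rfl
    | succ k ih =>
      intro r s hs
      have hs0 : s ≠ 0 := by
        rintro rfl
        simp at hs
      rw [H1]
      unfold prev
      have h1 : s.val = (s - 1).val + 1 := pred_val s hs0
      rw [if_neg hs0, ih r (s - 1) (by omega), hv, ← val_add]
      change _ = val (ps h y' r k + y' (h r (Fin.ofNat 8 (k + 1))))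
      have h2 : Fin.ofNat 8 (k + 1) = s := by
        rw [← hs]
        exact Fin.ofNat_val_eq_self s
      rw [h2]
  have hlin : ∀ r, lin h r y' = lin h r y := by
    intro r
    apply val_inj
    rw [← H2 r, ← ps_seven, hps 7 r 7 rfl]
  have heq : y' = y := by
    have h1 := hI (y' - y) (fun r => by rw [map_sub, hlin r, sub_self])
    exact sub_eq_zero.1 h1
  funext v
  match v with
  | .inl j => rw [hv, heq]; rfl
  | .inr (r, s) => rw [hps s.val r s rfl, heq]; rfl

/-! ### The instances -/

variable {M ℓ : ℕ}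

/-- The formula. -/
def inst (h : Sys n) (nm : Vr n → Fin ℓ → Bool) (idx : Fin M → Cl n) (x : Row n → Bool) :
    Idx M ℓ → Bool
  | (c, p, some j) => nm (cl h x (idx c) p).1 j
  | (c, p, none) => (cl h x (idx c) p).2

theorem inst_sat (h : Sys n) (nm : Vr n → Fin ℓ → Bool) {idx : Fin M → Cl n}
    (hidx : Function.Surjective idx) (x : Row n → Bool) (α : (Fin ℓ → Bool) → Bool) :
    Sat (inst h nm idx x) α ↔
      ∀ c, ∃ p, (fun v => α (nm v)) (cl h x c p).1 = (cl h x c p).2 := by
  constructor
  · intro H c
    obtain ⟨d, rfl⟩ := hidx c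
    exact H d
  · intro H d
    exact H (idx d)

theorem inst_occurs (h : Sys n) (nm : Vr n → Fin ℓ → Bool) {idx : Fin M → Cl n}
    (hidx : Function.Surjective idx) (x : Row n → Bool) (j : Fin n) :
    Occurs (inst h nm idx x) (nm (.inl j)) := by
  obtain ⟨d, hd⟩ := hidx ((0, j), some (0, 0))
  refine ⟨d, 1, ?_⟩
  funext i
  change nm (cl h x (idx d) 1).1 i = _
  rw [hd]
  rfl

theorem inst_occurs' (h : Sys n) (nm : Vr n → Fin ℓ → Bool) (idx : Fin M → Cl n)
    (x : Row n → Bool) {v : Fin ℓ → Bool} (hv : Occurs (inst h nm idx x) v) :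
    ∃ u, v = nm u := by
  obtain ⟨c, p, rfl⟩ := hv
  exact ⟨(cl h x (idx c) p).1, rfl⟩

/-- The equation which a bit of the formula depends on. -/
def kap (idx : Fin M → Cl n) : Idx M ℓ → Option (Row n)
  | (_, _, some _) => none
  | (c, _, none) => match (idx c).2 with
    | none => some (idx c).1
    | some _ => none

/-- The formula that belongs to `y`. -/
noncomputable def form (h : Sys n) (nm : Vr n → Fin ℓ → Bool) (idx : Fin M → Cl n)
    (y : Fin n → ZMod 2) : Idx M ℓ → Bool := inst h nm idx (fun r => val (lin h r y))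

theorem form_kap (h : Sys n) (nm : Vr n → Fin ℓ → Bool) (idx : Fin M → Cl n) (i : Idx M ℓ)
    (y y' : Fin n → ZMod 2) : form h nm idx y' i = form h nm idx y i ↔
      ∀ r, kap idx i = some r → lin h r y' = lin h r y := by
  obtain ⟨c, p, q⟩ := i
  match q with
  | some j =>
    constructor
    · intro _ r hr
      simp [kap] at hr
    · intro _
      change nm (cl h _ (idx c) p).1 j = nm (cl h _ (idx c) p).1 j
      obtain ⟨r, sc⟩ := idx c
      match sc with
      | none => rfl
      | some (s, d) => rfl
  | none =>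
    change (cl h _ (idx c) p).2 = (cl h _ (idx c) p).2 ↔
      ∀ r, (match (idx c).2 with
        | none => some (idx c).1
        | some _ => none) = some r → _
    obtain ⟨r, sc⟩ := idx c
    match sc with
    | none =>
      constructor
      · intro H r' hr'
        simp only [Option.some.injEq] at hr'
        subst hr'
        exact val_inj _ _ H
      · intro H
        change val _ = val _
        rw [H r rfl]
    | some (s, d) =>
      constructor
      · intro _ r' hr'
        simp at hr'
      · intro _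
        rfl

theorem form_sat {h : Sys n} (hI : Inj h) (nm : Vr n → Fin ℓ → Bool) {idx : Fin M → Cl n}
    (hidx : Function.Surjective idx) (y : Fin n → ZMod 2) (α : (Fin ℓ → Bool) → Bool) :
    Sat (form h nm idx y) α ↔ ∀ v, α (nm v) = sol h y v := by
  unfold form
  refine (inst_sat h nm hidx _ α).trans ((cl_iff h _ (fun v => α (nm v))).trans ?_)
  constructor
  · rintro ⟨H1, H2⟩ v
    exact congrFun (unique_sol hI y (fun v => α (nm v)) H1 H2) v
  · intro H
    constructor
    · intro r s
      simp only [H]
      exact sol_step h y r s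
    · intro r
      simp only [H]
      change val (ps h y r 7) = _
      rw [ps_seven]

theorem form_inj {h : Sys n} (hI : Inj h) (nm : Vr n → Fin ℓ → Bool) {idx : Fin M → Cl n}
    (hidx : Function.Surjective idx) : Function.Injective (form (M := M) h nm idx) := by
  intro y y' hy
  have h1 : ∀ r, lin h r y = lin h r y' := by
    intro r
    obtain ⟨d, hd⟩ := hidx (r, none)
    have h2 := (form_kap h nm idx ((d, 0, none) : Idx M ℓ) y' y).1 (congrFun hy _)
    apply h2
    simp [kap, hd]
  exact sub_eq_zero.1 (hI (y - y') (fun r => by rw [map_sub, h1 r, sub_self]))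

open Classical in
/-- **The trade-off for satisfying assignments**, for one program and large `M`. -/
theorem finds_core {h : Sys n} (hE : Expands h) (hI : Inj h) {nm : Vr n → Fin ℓ → Bool}
    (hnm : Function.Injective nm) {idx : Fin M → Cl n} (hidx : Function.Surjective idx)
    (P : Prog (Idx M ℓ) (Fin ℓ → Bool) Bool) (T π : ℕ)
    (hc : 2 ^ n ≤ 2 ^ π * (univ.filter (fun y => Finds P (form h nm idx y) T)).card) :
    n ^ 2 ≤ 2 ^ 32 * (T * (Nat.log 2 (Fintype.card P.State) + π + 1)) := by
  obtain ⟨f, hf⟩ : ∃ f : (Fin n → ZMod 2) → (Fin ℓ → Bool) → Bool,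
      ∀ y v, f y (nm v) = sol h y v :=
    ⟨fun y => Function.extend nm (sol h y) (fun _ => false),
      fun y v => hnm.extend_apply _ _ v⟩
  refine core hE (form h nm idx) (kap idx) (form_kap h nm idx) f (fun j => nm (.inl j))
    (hnm.comp Sum.inl_injective) ?_ P T π (fun v => ∃ j, v = nm (.inl j)) ?_ ?_
  · intro y y' j hj
    simp only [hf] at hj
    exact val_inj _ _ hj
  · intro v
    constructor
    · rintro ⟨j, rfl⟩; exact ⟨j, rfl⟩
    · rintro ⟨j, rfl⟩; exact ⟨j, rfl⟩
  · refine hc.trans (Nat.mul_le_mul_left _ (card_le_card ?_))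
    intro y hy
    rw [mem_filter] at hy ⊢
    refine ⟨mem_univ _, ?_⟩
    obtain ⟨-, l, h1, h2, α, h3, h4, h5⟩ := hy
    have h6 := (form_sat hI nm hidx y α).1 h3
    refine ⟨l, h1, h2, ?_, ?_⟩
    · rintro _ b ⟨j, rfl⟩ hb
      rw [h4 _ b (inst_occurs h nm hidx _ j) hb, h6, hf]
    · rintro _ ⟨j, rfl⟩
      have := h5 _ (inst_occurs h nm hidx (fun r => val (lin h r y)) j)
      rw [h6] at this
      rw [hf]
      exact this

end Pool.Agent.TH706.ST
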