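import Pool.Agent.TH706.ST.Sys

/-!
# There are sparse expanding systems: counting
-/

set_option autoImplicit false

open Finset

namespace Pool.Agent.TH706.ST

theorem self_pow_le (k : ℕ) : k ^ k ≤ 3 ^ k * k.factorial := by
  have h1 := Real.pow_div_factorial_le_exp (k : ℝ) (Nat.cast_nonneg k) k
  have h2 : Real.exp (k : ℝ) ≤ 3 ^ k := by
    rw [← mul_one (k : ℝ), Real.exp_nat_mul]
    apply pow_le_pow_left₀ (Real.exp_pos _).le
    exact (Real.exp_one_lt_d9.trans (by norm_num)).le
  have h3 : (0 : ℝ) < k.factorial := by exact_mod_cast Nat.factorial_pos k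
  rw [div_le_iff₀ h3] at h1
  have h4 : (k : ℝ) ^ k ≤ 3 ^ k * k.factorial :=
    h1.trans (mul_le_mul_of_nonneg_right h2 h3.le)
  exact_mod_cast h4

theorem choose_mul_self_pow (m k : ℕ) : m.choose k * k ^ k ≤ (3 * m) ^ k := by
  have h1 : k.factorial * m.choose k ≤ m ^ k := by
    rw [← Nat.descFactorial_eq_factorial_mul_choose]
    exact Nat.descFactorial_le_pow m k
  calc m.choose k * k ^ k ≤ m.choose k * (3 ^ k * k.factorial) :=
        Nat.mul_le_mul_left _ (self_pow_le k)
    _ = 3 ^ k * (k.factorial * m.choose k) := by ring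
    _ ≤ 3 ^ k * m ^ k := Nat.mul_le_mul_left _ h1
    _ = (3 * m) ^ k := (mul_pow 3 m k).symm

/-- A geometric sum. -/
theorem geom_bound (n N : ℕ) (c : ℕ → ℕ) (h : ∀ k ∈ Icc 1 n, c k * 4 ^ k ≤ N) :
    3 * ∑ k ∈ Icc 1 n, c k ≤ N := by
  have key : ∀ m, m ≤ n → 3 * 4 ^ m * ∑ k ∈ Icc 1 m, c k + N ≤ N * 4 ^ m := by
    intro m
    induction m with
    | zero => intro _; simp
    | succ m ih =>
      intro hm
      rw [sum_Icc_succ_top (by omega)]
      have h1 := ih (by omega)
      have h2 := h (m + 1) (mem_Icc.2 ⟨by omega, hm⟩)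
      calc 3 * 4 ^ (m + 1) * (∑ k ∈ Icc 1 m, c k + c (m + 1)) + N =
          4 * (3 * 4 ^ m * ∑ k ∈ Icc 1 m, c k + N) + 3 * (c (m + 1) * 4 ^ (m + 1)) - 3 * N := by
            rw [pow_succ]
            have : ∀ a b : ℕ, 3 * (4 ^ m * 4) * (a + b) + N =
              4 * (3 * 4 ^ m * a + N) + 3 * (b * (4 ^ m * 4)) - 3 * N := by
              intro a b
              have e : 4 * (3 * 4 ^ m * a + N) + 3 * (b * (4 ^ m * 4)) =
                (3 * (4 ^ m * 4) * (a + b) + N) + 3 * N := by ring
              omega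
            exact this _ _
        _ ≤ 4 * (N * 4 ^ m) + 3 * N - 3 * N :=
            Nat.sub_le_sub_right (Nat.add_le_add (Nat.mul_le_mul_left _ h1)
              (Nat.mul_le_mul_left _ h2)) _
        _ = N * 4 ^ (m + 1) := by rw [Nat.add_sub_cancel, pow_succ]; ring
  have h1 := key n le_rfl
  have h2 : 0 < 4 ^ n := by positivity
  have h3 : 4 ^ n * (3 * ∑ k ∈ Icc 1 n, c k) ≤ 4 ^ n * N := by
    calc 4 ^ n * (3 * ∑ k ∈ Icc 1 n, c k) = 3 * 4 ^ n * ∑ k ∈ Icc 1 n, c k := by ring
      _ ≤ N * 4 ^ n := by omega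
      _ = 4 ^ n * N := by ring
  exact Nat.le_of_mul_le_mul_left h3 h2

variable {n : ℕ}

theorem card_sys (n : ℕ) : Fintype.card (Sys n) = (n ^ 8) ^ (8 * n) := by
  rw [Fintype.card_fun, Fintype.card_fun, Fintype.card_prod, Fintype.card_fin, Fintype.card_fin]

/-- Functions with prescribed ranges of some of their values. -/
theorem card_presc (A : Finset (Row n)) (G : Finset (Fin 8 → Fin n)) :
    (univ.filter (fun h : Sys n => ∀ r ∈ A, h r ∈ G)).card =
      G.card ^ A.card * (n ^ 8) ^ (8 * n - A.card) := by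
  have e : univ.filter (fun h : Sys n => ∀ r ∈ A, h r ∈ G) =
      Fintype.piFinset (fun r => if r ∈ A then G else univ) := by
    ext h
    rw [mem_filter, Fintype.mem_piFinset]
    constructor
    · rintro ⟨-, h1⟩ r
      split_ifs with hr
      · exact h1 r hr
      · exact mem_univ _
    · intro h1
      refine ⟨mem_univ _, fun r hr => ?_⟩
      have := h1 r
      rwa [if_pos hr] at this
  rw [e, Fintype.card_piFinset]
  have e2 : ∀ r : Row n, (if r ∈ A then G else univ).card =
      if r ∈ A then G.card else n ^ 8 := by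
    intro r
    split_ifs
    · rfl
    · rw [card_univ, Fintype.card_fun, Fintype.card_fin, Fintype.card_fin]
  simp_rw [e2]
  rw [prod_ite, prod_const, prod_const, filter_mem_eq_inter, univ_inter, filter_not,
    filter_mem_eq_inter, univ_inter, card_sdiff_of_subset (subset_univ _), card_univ,
    Fintype.card_prod, Fintype.card_fin, Fintype.card_fin]

/-! ### Expansion -/

theorem term_one {n k : ℕ} (hk : k * 2 ^ 22 ≤ n) :
    (8 * n).choose k * n.choose (6 * k) * ((6 * k) ^ 8) ^ k * 4 ^ k ≤ (n ^ 8) ^ k := by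
  rcases Nat.eq_zero_or_pos k with rfl | hk0
  · simp
  have h1 := choose_mul_self_pow (8 * n) k
  have h2 := choose_mul_self_pow n (6 * k)
  have h3 : 0 < k ^ k := by positivity
  refine Nat.le_of_mul_le_mul_right ?_ h3
  calc (8 * n).choose k * n.choose (6 * k) * ((6 * k) ^ 8) ^ k * 4 ^ k * k ^ k =
      ((8 * n).choose k * k ^ k) * (n.choose (6 * k) * (6 * k) ^ (6 * k)) *
        ((36 * k ^ 2 * 4) ^ k) := by
        have e1 : ((6 * k) ^ 8) ^ k = (6 * k) ^ (6 * k) * (36 * k ^ 2) ^ k := by
          rw [pow_mul, ← mul_pow]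
          congr 1
          ring
        rw [e1, mul_pow (36 * k ^ 2) 4 k]
        ring
    _ ≤ (3 * (8 * n)) ^ k * (3 * n) ^ (6 * k) * ((36 * k ^ 2 * 4) ^ k) := by gcongr
    _ = (n ^ 7 * k * (2519424 * k)) ^ k := by
        rw [pow_mul, ← mul_pow, ← mul_pow]
        congr 1
        ring
    _ ≤ (n ^ 7 * k * n) ^ k := by
        gcongr
        omega
    _ = (n ^ 8) ^ k * k ^ k := by
        rw [← mul_pow]
        congr 1
        ring

open Classical in
theorem bad_one (n : ℕ) : 3 * (univ.filter (fun h : Sys n => ¬ Expands h)).card ≤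
    (n ^ 8) ^ (8 * n) := by
  have hsub : univ.filter (fun h : Sys n => ¬ Expands h) ⊆
      ((Icc 1 n).filter (fun k => k * 2 ^ 22 ≤ n)).biUnion (fun k =>
        (powersetCard k (univ : Finset (Row n)) ×ˢ powersetCard (6 * k) (univ : Finset (Fin n))).biUnion
          (fun u => univ.filter (fun h : Sys n => ∀ r ∈ u.1,
            h r ∈ Fintype.piFinset (fun _ : Fin 8 => u.2)))) := by
    intro h hh
    rw [mem_filter] at hh
    unfold Expands at hh
    push Not at hh
    obtain ⟨-, A, hA, hA'⟩ := hh
    have h1 : 6 * A.card ≤ (univ : Finset (Fin n)).card := by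
      rw [card_univ, Fintype.card_fin]
      omega
    obtain ⟨B, hB1, -, hB2⟩ := exists_subsuperset_card_eq (subset_univ
      (A.biUnion (fun r => univ.image (h r)))) hA'.le h1
    rw [mem_biUnion]
    refine ⟨A.card, ?_, ?_⟩
    · rw [mem_filter, mem_Icc]
      omega
    · rw [mem_biUnion]
      refine ⟨(A, B), ?_, ?_⟩
      · rw [mem_product, mem_powersetCard, mem_powersetCard]
        exact ⟨⟨subset_univ _, rfl⟩, subset_univ _, hB2⟩
      · rw [mem_filter]
        refine ⟨mem_univ _, fun r hr => ?_⟩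
        rw [Fintype.mem_piFinset]
        intro t
        apply hB1
        rw [mem_biUnion]
        exact ⟨r, hr, mem_image_of_mem _ (mem_univ _)⟩
  have hcard : (univ.filter (fun h : Sys n => ¬ Expands h)).card ≤
      ∑ k ∈ Icc 1 n, if k * 2 ^ 22 ≤ n then
        (8 * n).choose k * n.choose (6 * k) * (((6 * k) ^ 8) ^ k * (n ^ 8) ^ (8 * n - k)) else 0 := by
    rw [← sum_filter]
    refine (card_le_card hsub).trans (card_biUnion_le.trans (sum_le_sum ?_))
    intro k hk
    refine card_biUnion_le.trans ?_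
    have e : ∀ u ∈ powersetCard k (univ : Finset (Row n)) ×ˢ
        powersetCard (6 * k) (univ : Finset (Fin n)),
        (univ.filter (fun h : Sys n => ∀ r ∈ u.1,
          h r ∈ Fintype.piFinset (fun _ : Fin 8 => u.2))).card =
          ((6 * k) ^ 8) ^ k * (n ^ 8) ^ (8 * n - k) := by
      rintro ⟨A, B⟩ hu
      rw [mem_product, mem_powersetCard, mem_powersetCard] at hu
      rw [card_presc, hu.1.2, Fintype.card_piFinset, prod_const, card_univ, Fintype.card_fin]
      simp only at hu ⊢
      rw [hu.2.2]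
    rw [sum_congr rfl e, sum_const, card_product, card_powersetCard, card_powersetCard,
      card_univ, card_univ, Fintype.card_prod, Fintype.card_fin, Fintype.card_fin, smul_eq_mul]
  refine le_trans (Nat.mul_le_mul_left _ hcard) (geom_bound _ _ _ ?_)
  intro k hk
  rw [mem_Icc] at hk
  split_ifs with h1
  · calc (8 * n).choose k * n.choose (6 * k) * (((6 * k) ^ 8) ^ k * (n ^ 8) ^ (8 * n - k)) * 4 ^ k =
        ((8 * n).choose k * n.choose (6 * k) * ((6 * k) ^ 8) ^ k * 4 ^ k) *
          (n ^ 8) ^ (8 * n - k) := by ring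
      _ ≤ (n ^ 8) ^ k * (n ^ 8) ^ (8 * n - k) := Nat.mul_le_mul_right _ (term_one h1)
      _ = (n ^ 8) ^ (8 * n) := by rw [← pow_add]; congr 1; omega
  · simp

/-! ### Injectivity -/

/-- The lists of eight unknowns an odd number of which is in `K`. -/
def oddG (K : Finset (Fin n)) : Finset (Fin 8 → Fin n) :=
  univ.filter (fun g => Odd (univ.filter (fun t => g t ∈ K)).card)

theorem oddG_half (K : Finset (Fin n)) : 2 * (oddG K).card ≤ n ^ 8 := by
  have h1 := Fintype.sum_pow (fun j : Fin n => if j ∈ K then (-1 : ℤ) else 1) 8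
  have h2 : ∀ g : Fin 8 → Fin n, ∏ t, (if g t ∈ K then (-1 : ℤ) else 1) =
      1 - 2 * (if g ∈ oddG K then 1 else 0) := by
    intro g
    rw [prod_ite, prod_const, prod_const, one_pow, mul_one]
    have hm : g ∈ oddG K ↔ Odd (univ.filter (fun t => g t ∈ K)).card := by
      unfold oddG
      rw [mem_filter]
      exact ⟨fun h => h.2, fun h => ⟨mem_univ _, h⟩⟩
    by_cases h : Odd (univ.filter (fun t => g t ∈ K)).card
    · rw [h.neg_one_pow, if_pos (hm.2 h)]
      norm_num
    · rw [if_neg (fun h' => h (hm.1 h'))]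
      rw [Nat.not_odd_iff_even] at h
      rw [h.neg_one_pow]
      norm_num
  simp_rw [h2] at h1
  rw [sum_sub_distrib, ← mul_sum, ← sum_filter, filter_mem_eq_inter, univ_inter] at h1
  simp only [sum_const, card_univ, Fintype.card_fun, Fintype.card_fin, mul_one,
    nsmul_eq_mul] at h1
  have h3 : (0 : ℤ) ≤ (∑ j : Fin n, if j ∈ K then (-1 : ℤ) else 1) ^ 8 := by
    apply Even.pow_nonneg
    decide
  rw [h1] at h3
  push_cast at h3
  have h4 : (2 * (oddG K).card : ℤ) ≤ (n : ℤ) ^ 8 := by linarith
  exact_mod_cast h4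

theorem oddG_small (K : Finset (Fin n)) : (oddG K).card ≤ 8 * K.card * n ^ 7 := by
  have hsub : oddG K ⊆ (univ : Finset (Fin 8)).biUnion (fun t =>
      Fintype.piFinset (fun s => if s = t then K else univ)) := by
    intro g hg
    unfold oddG at hg
    rw [mem_filter] at hg
    have h1 : (univ.filter (fun t => g t ∈ K)).card ≠ 0 := by
      intro h
      rw [h] at hg
      exact (by decide : ¬ Odd 0) hg.2
    rw [card_ne_zero] at h1
    obtain ⟨t, ht⟩ := h1
    rw [mem_filter] at ht
    rw [mem_biUnion]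
    refine ⟨t, mem_univ _, ?_⟩
    rw [Fintype.mem_piFinset]
    intro s
    split_ifs with hs
    · rw [hs]; exact ht.2
    · exact mem_univ _
  refine (card_le_card hsub).trans (card_biUnion_le.trans ?_)
  have e : ∀ t ∈ (univ : Finset (Fin 8)), (Fintype.piFinset (fun s =>
      if s = t then K else (univ : Finset (Fin n)))).card = K.card * n ^ 7 := by
    intro t _
    rw [Fintype.card_piFinset]
    have e2 : ∀ s : Fin 8, (if s = t then K else (univ : Finset (Fin n))).card =
        if s = t then K.card else n := by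
      intro s
      split_ifs
      · rfl
      · rw [card_univ, Fintype.card_fin]
    simp_rw [e2]
    rw [prod_ite, prod_const, prod_const, filter_eq', if_pos (mem_univ _), card_singleton,
      pow_one]
    congr 2
    rw [filter_ne', card_erase_of_mem (mem_univ _), card_univ, Fintype.card_fin]
  rw [sum_congr rfl e, sum_const, card_univ, Fintype.card_fin, smul_eq_mul]
  exact le_of_eq (by ring)

theorem term_two (K : Finset (Fin n)) :
    n.choose K.card * (oddG K).card ^ (8 * K.card) * 4 ^ K.card ≤ (n ^ 8) ^ (8 * K.card) := by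
  obtain ⟨k, hk⟩ : ∃ k, k = K.card := ⟨_, rfl⟩
  rw [← hk]
  rcases Nat.eq_zero_or_pos k with rfl | hk0
  · simp
  have h1 := choose_mul_self_pow n k
  have h3 : 0 < k ^ k := by positivity
  refine Nat.le_of_mul_le_mul_right ?_ h3
  by_cases h16 : 16 * k ≤ n
  · have h2 : (oddG K).card ≤ 8 * k * n ^ 7 := by rw [hk]; exact oddG_small K
    calc n.choose k * (oddG K).card ^ (8 * k) * 4 ^ k * k ^ k =
        (n.choose k * k ^ k) * (oddG K).card ^ (8 * k) * 4 ^ k := by ring
      _ ≤ (3 * n) ^ k * (8 * k * n ^ 7) ^ (8 * k) * 4 ^ k := by gcongr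
      _ = (n ^ 57 * k * (201326592 * k ^ 7)) ^ k := by
          rw [pow_mul, ← mul_pow, ← mul_pow]
          congr 1
          ring
      _ ≤ (n ^ 57 * k * n ^ 7) ^ k := by
          gcongr
          calc 201326592 * k ^ 7 ≤ 16 ^ 7 * k ^ 7 := by gcongr; norm_num
            _ = (16 * k) ^ 7 := (mul_pow _ _ _).symm
            _ ≤ n ^ 7 := by gcongr
      _ = (n ^ 8) ^ (8 * k) * k ^ k := by
          rw [pow_mul, ← mul_pow]
          congr 1
          ring
  · have h2 := oddG_half K
    have h4 : (oddG K).card ^ (8 * k) * 256 ^ k ≤ (n ^ 8) ^ (8 * k) := by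
      calc (oddG K).card ^ (8 * k) * 256 ^ k = (2 * (oddG K).card) ^ (8 * k) := by
            rw [mul_pow, pow_mul 2 8 k]
            norm_num
            ring
        _ ≤ _ := by gcongr
    calc n.choose k * (oddG K).card ^ (8 * k) * 4 ^ k * k ^ k =
        (n.choose k * k ^ k) * (oddG K).card ^ (8 * k) * 4 ^ k := by ring
      _ ≤ (3 * n) ^ k * (oddG K).card ^ (8 * k) * 4 ^ k := by gcongr
      _ ≤ (64 * k) ^ k * (oddG K).card ^ (8 * k) * 4 ^ k := by
          apply Nat.mul_le_mul_right
          apply Nat.mul_le_mul_right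
          exact Nat.pow_le_pow_left (by omega) k
      _ = ((oddG K).card ^ (8 * k) * 256 ^ k) * k ^ k := by
          have : (256 : ℕ) ^ k = 64 ^ k * 4 ^ k := by rw [← mul_pow]; norm_num
          rw [this, mul_pow]
          ring
      _ ≤ (n ^ 8) ^ (8 * k) * k ^ k := Nat.mul_le_mul_right _ h4

open Classical in
theorem bad_two (n : ℕ) : 3 * (univ.filter (fun h : Sys n => ¬ Inj h)).card ≤
    (n ^ 8) ^ (8 * n) := by
  have hsub : univ.filter (fun h : Sys n => ¬ Inj h) ⊆
      (Icc 1 n).biUnion (fun k => (powersetCard k (univ : Finset (Fin n))).biUnion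
          (fun K => univ.filter (fun h : Sys n => ∀ r ∈ (univ : Finset (Fin 8)) ×ˢ K,
            h r ∈ oddG K))) := by
    intro h hh
    rw [mem_filter] at hh
    unfold Inj at hh
    push Not at hh
    obtain ⟨-, y, hy, hy0⟩ := hh
    obtain ⟨K, hK⟩ : ∃ K : Finset (Fin n), K = univ.filter (fun j => y j = 1) := ⟨_, rfl⟩
    have two : ∀ a : ZMod 2, a ≠ 0 → a = 1 := by decide
    have hK0 : K.Nonempty := by
      rw [Function.ne_iff] at hy0
      obtain ⟨j, hj⟩ := hy0
      exact ⟨j, by rw [hK, mem_filter]; exact ⟨mem_univ _, two _ hj⟩⟩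
    rw [mem_biUnion]
    refine ⟨K.card, ?_, ?_⟩
    · rw [mem_Icc]
      refine ⟨card_pos.2 hK0, ?_⟩
      have := card_le_univ K
      rwa [Fintype.card_fin] at this
    · rw [mem_biUnion]
      refine ⟨K, ?_, ?_⟩
      · rw [mem_powersetCard]
        exact ⟨subset_univ _, rfl⟩
      · rw [mem_filter]
        refine ⟨mem_univ _, ?_⟩
        rintro ⟨a, j⟩ hr
        rw [mem_product] at hr
        have hj : y j = 1 := by
          have := hr.2
          rw [hK, mem_filter] at this
          exact this.2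
        have h1 := hy (a, j)
        rw [lin_apply] at h1
        simp only [hj] at h1
        have h2 : ∑ t, y (h (a, j) t) = ((univ.filter (fun t => h (a, j) t ∈ K)).card : ZMod 2) := by
          rw [card_filter]
          push_cast
          refine sum_congr rfl (fun t _ => ?_)
          split_ifs with ht
          · rw [hK, mem_filter] at ht
            exact ht.2
          · by_contra h3
            apply ht
            rw [hK, mem_filter]
            exact ⟨mem_univ _, two _ h3⟩
        rw [h2] at h1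
        unfold oddG
        rw [mem_filter]
        refine ⟨mem_univ _, ?_⟩
        by_contra h3
        rw [Nat.not_odd_iff_even] at h3
        rw [(ZMod.natCast_eq_zero_iff_even).2 h3, add_zero] at h1
        exact one_ne_zero h1
  have hcard : (univ.filter (fun h : Sys n => ¬ Inj h)).card ≤
      ∑ k ∈ Icc 1 n, ∑ K ∈ powersetCard k (univ : Finset (Fin n)),
        (oddG K).card ^ (8 * k) * (n ^ 8) ^ (8 * n - 8 * k) := by
    refine (card_le_card hsub).trans (card_biUnion_le.trans (sum_le_sum ?_))
    intro k hk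
    refine card_biUnion_le.trans (sum_le_sum ?_)
    intro K hK
    rw [mem_powersetCard] at hK
    rw [card_presc, card_product, card_univ, Fintype.card_fin, hK.2]
  refine le_trans (Nat.mul_le_mul_left _ hcard) (geom_bound _ _ _ ?_)
  intro k hk
  rw [mem_Icc] at hk
  rw [sum_mul]
  have hch : 0 < n.choose k := Nat.choose_pos hk.2
  refine Nat.le_of_mul_le_mul_left ?_ hch
  rw [mul_sum]
  calc ∑ K ∈ powersetCard k (univ : Finset (Fin n)),
        n.choose k * ((oddG K).card ^ (8 * k) * (n ^ 8) ^ (8 * n - 8 * k) * 4 ^ k) ≤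
      ∑ _K ∈ powersetCard k (univ : Finset (Fin n)), (n ^ 8) ^ (8 * n) := by
        apply sum_le_sum
        intro K hK
        rw [mem_powersetCard] at hK
        have h1 := term_two K
        rw [hK.2] at h1
        calc n.choose k * ((oddG K).card ^ (8 * k) * (n ^ 8) ^ (8 * n - 8 * k) * 4 ^ k) =
            (n.choose k * (oddG K).card ^ (8 * k) * 4 ^ k) * (n ^ 8) ^ (8 * n - 8 * k) := by ring
          _ ≤ (n ^ 8) ^ (8 * k) * (n ^ 8) ^ (8 * n - 8 * k) := Nat.mul_le_mul_right _ h1
          _ = (n ^ 8) ^ (8 * n) := by rw [← pow_add]; congr 1; omega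
    _ = n.choose k * (n ^ 8) ^ (8 * n) := by
        rw [sum_const, card_powersetCard, card_univ, Fintype.card_fin, smul_eq_mul]

/-- **There are sparse expanding systems** with any number of unknowns. -/
theorem exists_sys (n : ℕ) : ∃ h : Sys n, Expands h ∧ Inj h := by
  classical
  rcases Nat.eq_zero_or_pos n with rfl | hn
  · refine ⟨fun r => r.2.elim0, ?_, ?_⟩
    · intro A _
      have : A = ∅ := by
        ext r
        exact r.2.elim0
      rw [this]
      simp
    · intro y _
      funext j
      exact j.elim0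
  · by_contra hcon
    push Not at hcon
    have h1 := bad_one n
    have h2 := bad_two n
    have h3 : (univ : Finset (Sys n)) ⊆ univ.filter (fun h : Sys n => ¬ Expands h) ∪
        univ.filter (fun h : Sys n => ¬ Inj h) := by
      intro h _
      rw [mem_union, mem_filter, mem_filter]
      by_cases h4 : Expands h
      · exact Or.inr ⟨mem_univ _, hcon h h4⟩
      · exact Or.inl ⟨mem_univ _, h4⟩
    have h4 := (card_le_card h3).trans (card_union_le _ _)
    rw [card_univ, card_sys] at h4
    have h5 : 0 < (n ^ 8) ^ (8 * n) := by positivity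
    omega

end Pool.Agent.TH706.ST
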