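import Pool.Agent.TH706.ST.Cover
import Pool.Agent.TH706.ST.Exist

/-!
# Finding the solution of a sparse expanding system, with a stack
-/

set_option autoImplicit false

open Finset

namespace Pool.Agent.TH706.ST

open Pool.Agent.W896.MO

/-- Arithmetic. -/
theorem arith {n T s lg π a N₁ e : ℕ} (hn : 2 ^ 25 ≤ n) (hT : n ≤ T) (ha : a = n / 2 ^ 24)
    (hN : n < (T / a + 1) * (N₁ + 1)) (he : N₁ ≤ 3 * e) (hlg : lg = Nat.log 2 s)
    (h : e ≤ π + 17 * (lg + 1)) : n ^ 2 ≤ 2 ^ 32 * (T * (lg + π + 1)) := by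
  have ha1 : 2 ≤ a := by omega
  have ha2 : n ≤ 2 ^ 25 * a := by omega
  have ha3 : a ≤ n := by omega
  have h1 : (T / a + 1) * a ≤ 2 * T := by
    have h4 : T / a * a ≤ T := Nat.div_mul_le_self _ _
    calc (T / a + 1) * a = T / a * a + a := by ring
      _ ≤ T + T := Nat.add_le_add h4 (by omega)
      _ = 2 * T := by ring
  calc n ^ 2 = n * n := by ring
    _ ≤ (2 ^ 25 * a) * ((T / a + 1) * (N₁ + 1)) := Nat.mul_le_mul ha2 hN.le
    _ = 2 ^ 25 * ((T / a + 1) * a) * (N₁ + 1) := by ring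
    _ ≤ 2 ^ 25 * (2 * T) * (64 * (lg + π + 1)) := by
        apply Nat.mul_le_mul (Nat.mul_le_mul_left _ h1)
        omega
    _ = 2 ^ 32 * (T * (lg + π + 1)) := by ring

open Classical in
/-- The count for one class. -/
theorem class_bound {n : ℕ} {h : Sys n} (hE : Expands h) {ι ω α : Type}
    (X : (Fin n → ZMod 2) → ι → α) (κ : ι → Option (Row n))
    (hX : ∀ i y y', X y' i = X y i ↔ ∀ r, κ i = some r → lin h r y' = lin h r y)
    (f : (Fin n → ZMod 2) → ω → α) (o : Fin n → ω) (ho : Function.Injective o)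
    (hf : ∀ y y' j, f y' (o j) = f y (o j) → y' j = y j) (y : Fin n → ZMod 2)
    (l : List (Option (Ev ι ω α))) (O : Finset ω) (hl : l.length * 2 ^ 22 ≤ n)
    {N₁ : ℕ} (hN : N₁ ≤ O.card) (hO : ∀ u ∈ O, u ∈ Set.range o) :
    2 ^ ((N₁ + 2) / 3) * (univ.filter (fun y' => Agr' X l y y' ∧
        ∀ u ∈ O, f y' u = f y u)).card ≤ (univ.filter (fun y' => Agr' X l y y')).card := by
  obtain ⟨Q, hQ⟩ : ∃ Q : Finset (Row n), Q = univ.filter (fun r =>
    ∃ i, some (.inl i) ∈ l ∧ κ i = some r) := ⟨_, rfl⟩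
  obtain ⟨R, hR⟩ : ∃ R : Finset (Fin n), R = univ.filter (fun j => o j ∈ O) := ⟨_, rfl⟩
  have hQc : Q.card ≤ l.length := by
    let g : Option (Ev ι ω α) → Option (Row n) := fun e => match e with
      | some (.inl i) => κ i
      | _ => none
    have h1 : Q.image some ⊆ (l.map g).toFinset := by
      intro e he
      rw [mem_image] at he
      obtain ⟨r, hr, rfl⟩ := he
      rw [hQ, mem_filter] at hr
      obtain ⟨-, i, hi, hi'⟩ := hr
      rw [List.mem_toFinset, List.mem_map]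
      exact ⟨_, hi, hi'⟩
    have h2 := card_le_card h1
    rw [card_image_of_injective _ (Option.some_injective _)] at h2
    refine h2.trans ((List.toFinset_card_le _).trans ?_)
    rw [List.length_map]
  have hRc : R.card = O.card := by
    have : O = R.image o := by
      ext u
      rw [mem_image]
      constructor
      · intro hu
        obtain ⟨j, rfl⟩ := hO u hu
        exact ⟨j, by rw [hR, mem_filter]; exact ⟨mem_univ _, hu⟩, rfl⟩
      · rintro ⟨j, hj, rfl⟩
        rw [hR, mem_filter] at hj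
        exact hj.2
    rw [this, card_image_of_injective _ ho]
  have h1 := count_coset hE Q (le_trans (Nat.mul_le_mul_right _ hQc) hl) R y
  refine le_trans (Nat.mul_le_mul (Nat.pow_le_pow_right (by norm_num) (by rw [hRc]; omega))
    (card_le_card ?_)) (h1.trans (card_le_card ?_))
  · intro z hz
    rw [mem_filter] at hz ⊢
    refine ⟨mem_univ _, ?_, ?_⟩
    · intro r hr
      rw [hQ, mem_filter] at hr
      obtain ⟨-, i, hi, hi'⟩ := hr
      exact (hX i y z).1 (hz.2.1 i hi) r hi'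
    · intro j hj
      rw [hR, mem_filter] at hj
      exact hf y z j (hz.2.2 _ hj.2)
  · intro z hz
    rw [mem_filter] at hz ⊢
    refine ⟨mem_univ _, ?_⟩
    intro i hi
    rw [hX]
    intro r hr
    apply hz.2
    rw [hQ, mem_filter]
    exact ⟨mem_univ _, i, hi, hr⟩

open Classical in
/-- **The trade-off.** The right hand sides of an expanding system are (coded in) the input, and
the unknowns are (coded in) the outputs. -/
theorem core {n : ℕ} {h : Sys n} (hE : Expands h) {ι ω α : Type} [Fintype ω]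
    (X : (Fin n → ZMod 2) → ι → α) (κ : ι → Option (Row n))
    (hX : ∀ i y y', X y' i = X y i ↔ ∀ r, κ i = some r → lin h r y' = lin h r y)
    (f : (Fin n → ZMod 2) → ω → α) (o : Fin n → ω) (ho : Function.Injective o)
    (hf : ∀ y y' j, f y' (o j) = f y (o j) → y' j = y j) (P : Prog ι ω α) (T π : ℕ)
    (Cnt : ω → Prop) (hC : ∀ u, Cnt u ↔ u ∈ Set.range o)
    (hc : 2 ^ n ≤ 2 ^ π * (univ.filter (fun y => Right P X f Cnt T y)).card) :
    n ^ 2 ≤ 2 ^ 32 * (T * (Nat.log 2 (Fintype.card P.State) + π + 1)) := by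
  obtain ⟨s, hs⟩ : ∃ s, s = Fintype.card P.State := ⟨_, rfl⟩
  obtain ⟨y₀, hy₀⟩ : ∃ y, Right P X f Cnt T y := by
    by_contra hcon
    push Not at hcon
    have : univ.filter (fun y => Right P X f Cnt T y) = ∅ := by
      rw [filter_eq_empty_iff]
      intro y _
      exact hcon y
    rw [this, card_empty, mul_zero] at hc
    have : 0 < 2 ^ n := by positivity
    omega
  obtain ⟨hns, hnT⟩ := hy₀.card_le o ho (fun k => (hC _).2 ⟨k, rfl⟩)
  rw [Fintype.card_fin, ← hs] at hns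
  rw [Fintype.card_fin] at hnT
  rw [← hs]
  have hbase : T ≤ T * (Nat.log 2 s + π + 1) := Nat.le_mul_of_pos_right _ (by omega)
  by_cases hn : n < 2 ^ 25
  · calc n ^ 2 = n * n := by ring
      _ ≤ 2 ^ 32 * (T * (Nat.log 2 s + π + 1)) := Nat.mul_le_mul (by omega) (hnT.trans hbase)
  by_cases hT2 : n ^ 2 ≤ T
  · calc n ^ 2 ≤ 1 * (T * (Nat.log 2 s + π + 1)) := by omega
      _ ≤ _ := Nat.mul_le_mul_right _ (by norm_num)
  push Not at hn hT2
  obtain ⟨a, ha⟩ : ∃ a, a = n / 2 ^ 24 := ⟨_, rfl⟩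
  obtain ⟨N₁, hN₁⟩ : ∃ N₁, N₁ = n / (T / a + 1) := ⟨_, rfl⟩
  have ha1 : 2 ≤ a := by omega
  have hlt : n < (T / a + 1) * (N₁ + 1) := by
    rw [hN₁]
    exact Nat.lt_mul_div_succ _ (Nat.succ_pos _)
  have hmain : ((N₁ + 2) / 3) ≤ π + 17 * (Nat.log 2 s + 1) := by
    rcases Nat.eq_zero_or_pos N₁ with h0 | hN1
    · rw [h0]
      omega
    have hu := union_bound' P X f Cnt (a := a) (N₀ := n) (N₁ := N₁) (T := T)
      (K := 2 ^ n / 2 ^ ((N₁ + 2) / 3)) (by omega) hN1
      (by rw [hN₁]; exact Nat.mul_div_le _ _) (by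
        refine le_trans (le_of_eq ?_) (card_le_card (s := univ.image o) ?_)
        · rw [card_image_of_injective _ ho, card_univ, Fintype.card_fin]
        · intro u hu
          rw [mem_image] at hu
          obtain ⟨j, -, rfl⟩ := hu
          rw [mem_filter]
          exact ⟨mem_univ _, (hC _).2 ⟨j, rfl⟩⟩) (by
        intro Rel hRel
        rw [Nat.le_div_iff_mul_le (by positivity), mul_comm]
        have h1 := classes_good' X f Cnt hRel a N₁ (2 ^ ((N₁ + 2) / 3)) (by
          intro y l O h2 h3 h4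
          exact class_bound hE X κ hX f o ho hf y l O (by omega) h3
            (fun u hu => (hC u).1 (h4 u hu)))
        rwa [Fintype.card_fun, Fintype.card_fin, ZMod.card] at h1)
    rw [← hs] at hu
    have hs1 : 1 ≤ s := by omega
    have hTs : T + 1 ≤ s ^ 2 := by
      have h2 : n ^ 2 ≤ s ^ 2 := Nat.pow_le_pow_left hns 2
      omega
    have h1 : s * (T * s ^ 2 + 1) ^ 4 ≤ s ^ 17 := by
      have h2 : T * s ^ 2 + 1 ≤ s ^ 4 := by
        have h3 : 1 ≤ s ^ 2 := Nat.one_le_pow _ _ hs1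
        calc T * s ^ 2 + 1 ≤ T * s ^ 2 + s ^ 2 := Nat.add_le_add_left h3 _
          _ = (T + 1) * s ^ 2 := by ring
          _ ≤ s ^ 2 * s ^ 2 := Nat.mul_le_mul_right _ hTs
          _ = s ^ 4 := by ring
      calc s * (T * s ^ 2 + 1) ^ 4 ≤ s * (s ^ 4) ^ 4 :=
            Nat.mul_le_mul_left _ (Nat.pow_le_pow_left h2 4)
        _ = s ^ 17 := by ring
    have h2 : s ^ 17 ≤ 2 ^ (17 * (Nat.log 2 s + 1)) := by
      calc s ^ 17 ≤ (2 ^ (Nat.log 2 s + 1)) ^ 17 :=
            Nat.pow_le_pow_left (Nat.lt_pow_succ_log_self (by norm_num) s).le _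
        _ = _ := by rw [← pow_mul, mul_comm]
    have h3 : 2 ^ n * 2 ^ ((N₁ + 2) / 3) ≤ 2 ^ n * 2 ^ (π + 17 * (Nat.log 2 s + 1)) := by
      calc 2 ^ n * 2 ^ ((N₁ + 2) / 3) ≤
          (2 ^ π * (s * (T * s ^ 2 + 1) ^ 4 * (2 ^ n / 2 ^ ((N₁ + 2) / 3)))) *
            2 ^ ((N₁ + 2) / 3) := Nat.mul_le_mul_right _ (hc.trans (Nat.mul_le_mul_left _ hu))
        _ = 2 ^ π * (s * (T * s ^ 2 + 1) ^ 4) *
            (2 ^ n / 2 ^ ((N₁ + 2) / 3) * 2 ^ ((N₁ + 2) / 3)) := by ring
        _ ≤ 2 ^ π * 2 ^ (17 * (Nat.log 2 s + 1)) * 2 ^ n :=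
            Nat.mul_le_mul (Nat.mul_le_mul_left _ (h1.trans h2)) (Nat.div_mul_le_self _ _)
        _ = _ := by rw [pow_add]; ring
    have h4 := Nat.le_of_mul_le_mul_left h3 (by positivity)
    exact (Nat.pow_le_pow_iff_right (by norm_num)).1 h4
  exact arith hn hnT ha hlt (e := (N₁ + 2) / 3) (by omega) rfl hmain

end Pool.Agent.TH706.ST
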