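import Pool.Agent.TH706.ST.Two

/-!
# Counting the models of 2-CNF formulas with a stack: the final form
-/

set_option autoImplicit false

open Finset

namespace Pool.Agent.TH706.ST

open Pool.Agent.W896.MO

variable {m M ℓ : ℕ}

/-- The formula all of whose literals are the same variable. -/
def triv2 (M ℓ : ℕ) : Idx2 M ℓ → Bool := fun i => match i.2.2 with
  | none => true
  | some _ => false

theorem triv2_models (M ℓ : ℕ) : 0 < models (triv2 M ℓ) := by
  unfold models
  have : Nonempty {α : Var2 (triv2 M ℓ) → Bool //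
      ∀ c, ∃ p, α ⟨name2 (triv2 M ℓ) c p, c, p, rfl⟩ = triv2 M ℓ (c, p, none)} :=
    ⟨⟨fun _ => true, fun _ => ⟨0, rfl⟩⟩⟩
  exact Nat.card_pos

theorem counts_pos {P : Prog (Idx2 M ℓ) (Fin (2 * M + 1)) Bool}
    {w : Idx2 M ℓ → Bool} {T : ℕ} (hw : 0 < models w) (h : Counts P w T) : 1 ≤ T := by
  obtain ⟨l, -, h2, -, h5⟩ := h
  have h6 := h5 0 (by
    rw [Nat.lt_size, Fin.val_zero, pow_zero]
    exact hw)
  have h7 := List.length_pos_of_mem h6
  omega

open Classical in
theorem counts_core {nm : V2 m → Fin ℓ → Bool} (hnm : Function.Injective nm)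
    {idx : Fin M → C2 m} (hidx : Function.Surjective idx) (hmM : m ≤ M)
    (P : Prog (Idx2 M ℓ) (Fin (2 * M + 1)) Bool) (T π : ℕ)
    (hc : Nat.card (Tri m) ≤ 2 ^ π * Nat.card {y // Counts P (form2 nm idx y) T}) :
    m ^ 2 ≤ 2 ^ 10 * (T * (Nat.log 2 (Fintype.card P.State) + π + 1)) := by
  have hNz : NeZero (2 ^ (2 * m)) := ⟨by positivity⟩
  obtain ⟨o, ho⟩ : ∃ o : Fin m → Fin (2 * M + 1), ∀ j, (o j).val = m + j.val :=
    ⟨fun j => ⟨m + j.val, by have := j.isLt; omega⟩, fun j => rfl⟩
  refine core2 (form2 nm idx) (kap2 idx) (form2_kap nm idx)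
    (fun y i => (models (form2 nm idx y)).testBit i.val) o ?_ ?_ P T π
    (fun u => u ∈ Set.range o) (fun u => Iff.rfl) ?_
  · intro j j' h
    have h1 := congrArg Fin.val h
    rw [ho, ho] at h1
    exact Fin.ext (Nat.add_left_cancel h1)
  · intro y y' j h
    have hj : (o j).val < 2 * m := by
      rw [ho]
      have := j.isLt
      omega
    rw [models_bit hnm hidx _ hj, models_bit hnm hidx _ hj, ho] at h
    exact h
  · refine hc.trans (Nat.mul_le_mul_left _ (Nat.card_le_card_of_injective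
      (fun y : {y // Counts P (form2 nm idx y) T} => (⟨y.1, ?_⟩ : {y // Right P (form2 nm idx)
        (fun y i => (models (form2 nm idx y)).testBit i.val) (fun u => u ∈ Set.range o) T y}))
      ?_))
    · obtain ⟨l, h1, h2, h3, h4⟩ := y.2
      refine ⟨l, h1, h2, fun i b _ hb => h3 i b hb, ?_⟩
      rintro _ ⟨j, rfl⟩
      apply h4
      apply models_size hnm hidx
      rw [ho]
      have := j.isLt
      omega
    · intro y y' h
      have h1 := congrArg Subtype.val h
      exact Subtype.ext h1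

open Classical in
/-- **Counting models with a stack**: reads and writes times memory. -/
theorem count_main : ∃ D : ℕ, 0 < D ∧ ∀ M ℓ : ℕ, 1 ≤ M → M ≤ 2 ^ ℓ →
    ∃ W : Finset (Idx2 M ℓ → Bool), W.Nonempty ∧
      ∀ (T π : ℕ) (R : Type) [Fintype R] [Nonempty R]
        (P : R → Prog (Idx2 M ℓ) (Fin (2 * M + 1)) Bool),
        Nat.card R * W.card ≤ 2 ^ π * Nat.card {u : R × W // Counts (P u.1) u.2.1 T} →
        ∃ r, M ^ 2 ≤ D * (T * (Nat.log 2 (Fintype.card (P r).State) + π + 1)) := by
  refine ⟨2 ^ 23, by norm_num, ?_⟩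
  intro M ℓ hM hℓ
  by_cases hsmall : M < 34
  · refine ⟨{triv2 M ℓ}, singleton_nonempty _, ?_⟩
    intro T π R _ _ P hc
    have hT : 1 ≤ T := by
      by_contra hT0
      have h1 : IsEmpty {u : R × ({triv2 M ℓ} : Finset (Idx2 M ℓ → Bool)) //
          Counts (P u.1) u.2.1 T} := ⟨fun u => hT0 (counts_pos (by
            have h2 := u.1.2.2
            rw [mem_singleton] at h2
            rw [h2]
            exact triv2_models M ℓ) u.2)⟩
      rw [@Nat.card_of_isEmpty _ h1, card_singleton, mul_one, mul_zero] at hc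
      have h2 : 0 < Nat.card R := Nat.card_pos
      omega
    obtain ⟨r⟩ := (inferInstance : Nonempty R)
    refine ⟨r, ?_⟩
    calc M ^ 2 ≤ 34 ^ 2 := Nat.pow_le_pow_left hsmall.le 2
      _ ≤ 2 ^ 23 * (1 * 1) := by norm_num
      _ ≤ _ := by
          apply Nat.mul_le_mul_left
          exact Nat.mul_le_mul hT (by omega)
  · push Not at hsmall
    obtain ⟨m, hm⟩ : ∃ m, m = M / 34 := ⟨_, rfl⟩
    have hm1 : 1 ≤ m := by omega
    have hMm : 34 * m ≤ M := by omega
    have hMm' : M ≤ 67 * m := by omega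
    have hNz : NeZero (2 ^ (2 * m)) := ⟨by positivity⟩
    have hne : Nonempty (C2 m) := ⟨.inr 0⟩
    obtain ⟨⟨nm, hnm⟩, idx, hidx⟩ := exists_places (A := V2 m) (B := C2 m) (ℓ := ℓ) (M := M)
      (by
        simp only [V2, Fintype.card_sum, Fintype.card_prod, Fintype.card_fin]
        omega)
      (by
        simp only [C2, Fintype.card_sum, Fintype.card_prod, Fintype.card_fin]
        omega)
    have hinj := form2_inj nm hidx
    refine ⟨univ.image (form2 nm idx), ⟨_, mem_image_of_mem _ (mem_univ 0)⟩, ?_⟩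
    intro T π R _ _ P hc
    obtain ⟨r, hr⟩ := average (fun r (w : (univ.image (form2 (M := M) nm idx) :
      Finset (Idx2 M ℓ → Bool))) => Counts (P r) w.1 T) (2 ^ π) (by
        rw [Nat.card_eq_fintype_card (α := (univ.image (form2 (M := M) nm idx) :
          Finset (Idx2 M ℓ → Bool))), Fintype.card_coe]
        exact hc)
    refine ⟨r, ?_⟩
    let e : Tri m ≃ (univ.image (form2 (M := M) nm idx) :
        Finset (Idx2 M ℓ → Bool)) :=
      Equiv.ofBijective (fun y => ⟨form2 nm idx y, mem_image_of_mem _ (mem_univ _)⟩)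
        ⟨fun y y' hy => hinj (congrArg Subtype.val hy), fun w => by
          obtain ⟨w, hw⟩ := w
          rw [mem_image] at hw
          obtain ⟨y, -, rfl⟩ := hw
          exact ⟨y, rfl⟩⟩
    have h2 : Nat.card {y // Counts (P r) (form2 nm idx y) T} =
        Nat.card {w : (univ.image (form2 (M := M) nm idx) :
        Finset (Idx2 M ℓ → Bool)) // Counts (P r) w.1 T} :=
      Nat.card_congr (Equiv.subtypeEquiv e (fun y => Iff.rfl))
    rw [← Nat.card_congr e, ← h2] at hr
    have h3 := counts_core hnm hidx (by omega) (P r) T π hr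
    calc M ^ 2 ≤ (67 * m) ^ 2 := Nat.pow_le_pow_left hMm' 2
      _ ≤ 2 ^ 13 * m ^ 2 := by nlinarith
      _ ≤ 2 ^ 13 * (2 ^ 10 * (T * (Nat.log 2 (Fintype.card (P r).State) + π + 1))) :=
          Nat.mul_le_mul_left _ h3
      _ = _ := by ring

end Pool.Agent.TH706.ST
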