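import Pool.Agent.W896.MO.Union

/-!
# Union bound and classes, when only some of the outputs count

This is the union bound of `Pool.Agent.W896.MO.Union` and the partition into classes of
`Pool.Agent.W896.MO.Classes`, in a version in which only the values written for the outputs in
`Cnt` have to be right (these are the variables of a formula the values of which are determined),
and the right values are a function of the parameter `y`.
-/

set_option autoImplicit false

open Finset

namespace Pool.Agent.TH706.ST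

open Pool.Agent.W896.MO

variable {ι ω α Ω : Type}

/-- With the input `X y` the program halts after at most `T` reads and writes, all the values
written for the outputs in `Cnt` are right, and there is one for each of these outputs. -/
def Right (P : Prog ι ω α) (X : Ω → ι → α) (f : Ω → ω → α) (Cnt : ω → Prop) (T : ℕ) (y : Ω) :
    Prop :=
  ∃ l, P.Runs (X y) P.start [] l ∧ l.length ≤ T ∧
    (∀ o v, Cnt o → .inr (o, v) ∈ l → v = f y o) ∧ ∀ o, Cnt o → .inr (o, f y o) ∈ l

/-- What a procedure may achieve with the parameter `y`. -/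
def Good' (X : Ω → ι → α) (f : Ω → ω → α) (Cnt : ω → Prop) (a N₁ : ℕ)
    (Rel : (ι → α) → List (Option (Ev ι ω α)) → Prop) (y : Ω) : Prop :=
  ∃ l, Rel (X y) l ∧ l.length ≤ 4 * a ∧ (∀ o v, Cnt o → some (.inr (o, v)) ∈ l → v = f y o) ∧
    ∃ O : Finset ω, N₁ ≤ O.card ∧ ∀ o ∈ O, Cnt o ∧ some (.inr (o, f y o)) ∈ l

open Classical in
/-- **The union bound.** -/
theorem union_bound' [Fintype Ω] [Fintype ω] (P : Prog ι ω α) (X : Ω → ι → α)
    (f : Ω → ω → α) (Cnt : ω → Prop) {a N₀ N₁ T K : ℕ} (ha : 1 ≤ a)
    (hN₁ : 1 ≤ N₁) (hN : (T / a + 1) * N₁ ≤ N₀)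
    (hG : N₀ ≤ (univ.filter (fun o => Cnt o)).card)
    (hK : ∀ Rel, Proc Rel → (univ.filter (fun y => Good' X f Cnt a N₁ Rel y)).card ≤ K) :
    (univ.filter (fun y => Right P X f Cnt T y)).card ≤
      Fintype.card P.State * (T * (Fintype.card P.State) ^ 2 + 1) ^ 4 * K := by
  have key : ∀ y, Right P X f Cnt T y →
      ∃ (q : P.State) (d : Fin 4 → Option (Fin T × P.State × P.State)),
        Good' X f Cnt a N₁ (relOf P q (dec d)) y := by
    rintro y ⟨l, h1, h2, h3, h4⟩
    obtain ⟨p, h5, -⟩ : ∃ p, Ret (toQP P) (ext (X y)) P.start l p ∧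
        (toQP P).act p = QAct.halt := h1.toDec
    obtain ⟨e, h6⟩ := h5.toDer 0
    have hw : ∀ l : List (Ev ι ω α), wt a (l.map some) = l.length := by
      intro l
      induction l with
      | nil => rfl
      | cons b l ih => simp only [List.map_cons, wt, List.length_cons, ih]; omega
    obtain ⟨L, b1, b2, b3, b4, b5⟩ := pieces ha (wt a (l.map some)) (fun _ => none) P.start p
      (l.map some) e le_rfl h6 (fun c hc => absurd rfl hc)
    rw [hw] at b5
    have hL : L.length ≤ T / a + 1 := by
      have h7 : L.length * a ≤ T + a := by omega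
      have h8 : L.length ≤ (T + a) / a := (Nat.le_div_iff_mul_le (by omega)).2 h7
      rwa [Nat.add_div_right _ (by omega)] at h8
    obtain ⟨out, hout⟩ : ∃ out : List (Option (Ev ι ω α)) → Finset ω, ∀ l', out l' =
      univ.filter (fun o => Cnt o ∧ some (.inr (o, f y o)) ∈ l') := ⟨_, fun _ => rfl⟩
    have hex : ∃ l' ∈ L, N₁ ≤ (out l').card := by
      by_contra hcon
      push Not at hcon
      have hsub : univ.filter (fun o => Cnt o) ⊆ L.toFinset.biUnion out := by
        intro o ho
        rw [mem_filter] at ho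
        have h7 : some (.inr (o, f y o)) ∈ l.map some :=
          List.mem_map_of_mem (h4 o ho.2)
        obtain ⟨l', h8, h9⟩ := b4 _ h7
        rw [mem_biUnion]
        refine ⟨l', List.mem_toFinset.2 h8, ?_⟩
        rw [hout, mem_filter]
        exact ⟨mem_univ _, ho.2, h9⟩
      have h7 : (univ.filter (fun o => Cnt o)).card ≤ L.length * (N₁ - 1) := by
        calc _ ≤ (L.toFinset.biUnion out).card := card_le_card hsub
          _ ≤ ∑ l' ∈ L.toFinset, (out l').card := card_biUnion_le
          _ ≤ ∑ _l' ∈ L.toFinset, (N₁ - 1) := sum_le_sum (fun l' hl' => by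
              have := hcon l' (List.mem_toFinset.1 hl')
              omega)
          _ = L.toFinset.card * (N₁ - 1) := by rw [sum_const, smul_eq_mul]
          _ ≤ _ := Nat.mul_le_mul_right _ (List.toFinset_card_le L)
      have h9 : L.length * (N₁ - 1) ≤ (T / a + 1) * (N₁ - 1) := Nat.mul_le_mul_right _ hL
      have h10 : (T / a + 1) * (N₁ - 1) < (T / a + 1) * N₁ :=
        (Nat.mul_lt_mul_left (Nat.succ_pos _)).2 (by omega)
      omega
    obtain ⟨l', h7, h8⟩ := hex
    obtain ⟨q, p', H, e', h9, h10, h11⟩ := b1 l' h7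
    have hlen : ∀ l : List (Option (Ev ι ω α)), l.length ≤ wt a l := len_le_wt ha
    have hcnt : nn l' ≤ 4 := by
      have h12 := nn_wt a l'
      have h13 : nn l' * a ≤ 4 * a := by omega
      exact Nat.le_of_mul_le_mul_right h13 (by omega)
    have hHT : ∀ c, H c ≠ none → c < T := by
      intro c hc
      have h12 := h11 c hc
      have h13 : c < l'.length := by
        by_contra h14
        rw [List.getElem?_eq_none (by omega)] at h12
        simp at h12
      have h14 := b3 l' h7
      rw [List.length_map] at h14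
      omega
    obtain ⟨d, hd⟩ := exists_dec H hHT (by
      refine le_trans ?_ hcnt
      have h12 : (((range T).filter (fun c => H c ≠ none)).card) ≤
          ((range l'.length).filter (fun c => l'[c]? = some none)).card := by
        apply card_le_card
        intro c hc
        rw [mem_filter, mem_range] at hc ⊢
        have h13 := h11 c hc.2
        refine ⟨?_, h13⟩
        by_contra h14
        rw [List.getElem?_eq_none (by omega)] at h13
        simp at h13
      exact h12.trans (card_nn l').le)
    refine ⟨q, d, l', ⟨p', e', ?_⟩, ?_, ?_, out l', h8, ?_⟩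
    · subst hd; exact h9
    · exact (hlen l').trans h10
    · intro o v ho hv
      have h12 := b2 l' h7 _ hv
      rw [List.mem_map] at h12
      obtain ⟨ev, h13, h14⟩ := h12
      rw [Option.some.injEq] at h14
      rw [h14] at h13
      exact h3 o v ho h13
    · intro o ho
      rw [hout, mem_filter] at ho
      exact ho.2
  have hsub : univ.filter (fun y => Right P X f Cnt T y) ⊆
      (univ : Finset (P.State × (Fin 4 → Option (Fin T × P.State × P.State)))).biUnion
        (fun u => univ.filter (fun y => Good' X f Cnt a N₁ (relOf P u.1 (dec u.2)) y)) := by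
    intro y hy
    rw [mem_filter] at hy
    obtain ⟨q, d, h⟩ := key y hy.2
    rw [mem_biUnion]
    exact ⟨(q, d), mem_univ _, mem_filter.2 ⟨mem_univ _, h⟩⟩
  calc _ ≤ _ := card_le_card hsub
    _ ≤ ∑ u : P.State × (Fin 4 → Option (Fin T × P.State × P.State)),
        (univ.filter (fun y => Good' X f Cnt a N₁ (relOf P u.1 (dec u.2)) y)).card :=
          card_biUnion_le
    _ ≤ ∑ _u : P.State × (Fin 4 → Option (Fin T × P.State × P.State)), K :=
          sum_le_sum (fun u _ => hK _ (proc_relOf P u.1 (dec u.2)))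
    _ = _ := by
          rw [sum_const, card_univ, Fintype.card_prod, card_dec, smul_eq_mul]

/-- The inputs agree on the reads of the list `l`. -/
def Agr' (X : Ω → ι → α) (l : List (Option (Ev ι ω α))) (y y' : Ω) : Prop :=
  ∀ i, some (.inl i) ∈ l → X y' i = X y i

open Classical in
/-- If in every class a fraction of at most `1 / N` of the parameters is in `A` then so it is
for all parameters. -/
theorem classes' [Fintype Ω] (X : Ω → ι → α) {Rel : (ι → α) → List (Option (Ev ι ω α)) → Prop}
    (hP : Proc Rel) (A : Finset Ω) (lst : Ω → List (Option (Ev ι ω α)))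
    (hl : ∀ y ∈ A, Rel (X y) (lst y)) (N : ℕ)
    (hN : ∀ y ∈ A, N * (A.filter (fun y' => Agr' X (lst y) y y')).card ≤
      (univ.filter (fun y' => Agr' X (lst y) y y')).card) : N * A.card ≤ Fintype.card Ω := by
  obtain ⟨C, hC⟩ : ∃ C : Ω → Finset Ω, ∀ y, C y = univ.filter (fun y' => Agr' X (lst y) y y') :=
    ⟨_, fun _ => rfl⟩
  have hAC : ∀ y, A ∩ C y = A.filter (fun y' => Agr' X (lst y) y y') := by
    intro y
    ext z
    rw [mem_inter, hC, mem_filter, mem_filter]
    constructor
    · rintro ⟨h1, h2⟩; exact ⟨h1, h2.2⟩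
    · rintro ⟨h1, h2⟩; exact ⟨h1, mem_univ _, h2⟩
  have hself : ∀ y ∈ A, y ∈ C y := by
    intro y hy
    rw [hC, mem_filter]
    exact ⟨mem_univ _, fun i _ => rfl⟩
  have hdis : ∀ y ∈ A, ∀ z ∈ A, ∀ w, w ∈ C y → w ∈ C z → C y = C z := by
    intro y hy z hz w h1 h2
    rw [hC, mem_filter] at h1 h2
    have e1 := hP.trans _ (X w) _ (hl y hy) (fun i hi => h1.2 i hi)
    have e2 := hP.trans _ (X w) _ (hl z hz) (fun i hi => h2.2 i hi)
    have e3 := hP.uniq _ _ _ _ e1 e2 (fun _ _ _ => rfl)
    rw [hC, hC]
    ext v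
    rw [mem_filter, mem_filter, ← e3]
    refine and_congr_right (fun _ => ?_)
    constructor
    · intro h i hi
      rw [h i hi, ← h1.2 i hi, h2.2 i (e3 ▸ hi)]
    · intro h i hi
      rw [h i hi, ← h1.2 i hi, h2.2 i (e3 ▸ hi)]
  have hsub : A ⊆ (A.image C).biUnion (fun D => A ∩ D) := by
    intro y hy
    rw [mem_biUnion]
    exact ⟨C y, mem_image_of_mem _ hy, mem_inter.2 ⟨hy, hself y hy⟩⟩
  have hdisj : (↑(A.image C) : Set (Finset Ω)).PairwiseDisjoint id := by
    intro D hD E hE hDE
    rw [mem_coe, mem_image] at hD hE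
    obtain ⟨y, hy, rfl⟩ := hD
    obtain ⟨z, hz, rfl⟩ := hE
    rw [Function.onFun, id, id, disjoint_left]
    intro w h1 h2
    exact hDE (hdis y hy z hz w h1 h2)
  calc N * A.card ≤ N * ∑ D ∈ A.image C, (A ∩ D).card := by
        apply Nat.mul_le_mul_left
        exact (card_le_card hsub).trans card_biUnion_le
    _ = ∑ D ∈ A.image C, N * (A ∩ D).card := mul_sum _ _ _
    _ ≤ ∑ D ∈ A.image C, D.card := by
        apply sum_le_sum
        intro D hD
        rw [mem_image] at hD
        obtain ⟨y, hy, rfl⟩ := hD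
        rw [hAC, hC]
        exact hN y hy
    _ = ((A.image C).biUnion id).card := (card_biUnion hdisj).symm
    _ ≤ Fintype.card Ω := card_le_univ _

open Classical in
/-- The version for procedures with outputs. -/
theorem classes_good' [Fintype Ω] (X : Ω → ι → α) (f : Ω → ω → α) (Cnt : ω → Prop)
    {Rel : (ι → α) → List (Option (Ev ι ω α)) → Prop} (hP : Proc Rel) (a N₁ N : ℕ)
    (hN : ∀ y, ∀ (l : List (Option (Ev ι ω α))) (O : Finset ω), l.length ≤ 4 * a → N₁ ≤ O.card →
      (∀ o ∈ O, Cnt o) → N * (univ.filter (fun y' => Agr' X l y y' ∧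
        ∀ o ∈ O, f y' o = f y o)).card ≤ (univ.filter (fun y' => Agr' X l y y')).card) :
    N * (univ.filter (fun y => Good' X f Cnt a N₁ Rel y)).card ≤ Fintype.card Ω := by
  obtain ⟨A, hA⟩ : ∃ A, A = univ.filter (fun y => Good' X f Cnt a N₁ Rel y) := ⟨_, rfl⟩
  rw [← hA]
  have hex : ∀ y, ∃ (l : List (Option (Ev ι ω α))) (O : Finset ω), y ∈ A → Rel (X y) l ∧
      l.length ≤ 4 * a ∧ (∀ o v, Cnt o → some (.inr (o, v)) ∈ l → v = f y o) ∧
      N₁ ≤ O.card ∧ (∀ o ∈ O, Cnt o ∧ some (.inr (o, f y o)) ∈ l) := by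
    intro y
    by_cases hy : y ∈ A
    · have h1 := hy
      rw [hA, mem_filter] at h1
      obtain ⟨l, h2, h3, h4, O, h5, h6⟩ := h1.2
      exact ⟨l, O, fun _ => ⟨h2, h3, h4, h5, h6⟩⟩
    · exact ⟨[], ∅, fun h => absurd h hy⟩
  choose lst Os hlst using hex
  refine classes' X hP A lst (fun y hy => (hlst y hy).1) N ?_
  intro y hy
  refine le_trans (Nat.mul_le_mul_left _ (card_le_card ?_))
    (hN y (lst y) (Os y) (hlst y hy).2.1 (hlst y hy).2.2.2.1
      (fun o ho => ((hlst y hy).2.2.2.2 o ho).1))
  intro z hz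
  rw [mem_filter] at hz ⊢
  refine ⟨mem_univ _, hz.2, ?_⟩
  intro o ho
  have e1 := hP.trans _ (X z) _ (hlst y hy).1 (fun i hi => hz.2 i hi)
  have e3 := hP.uniq _ _ _ _ e1 (hlst z hz.1).1 (fun _ _ _ => rfl)
  have e4 := (hlst y hy).2.2.2.2 o ho
  rw [e3] at e4
  exact ((hlst z hz.1).2.2.1 _ _ e4.1 e4.2).symm

/-! ### Every output needs a node and a step -/

theorem runs_node {P : Prog ι ω α} {x : ι → α} {q : P.State} {σ : List P.Sym}
    {l : List (ι ⊕ (ω × α))} (h : P.Runs x q σ l) : ∀ o v, .inr (o, v) ∈ l →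
      ∃ p q', P.act p = Act.write o v q' := by
  induction h with
  | halt _ => intro o v h; simp at h
  | read _ _ ih =>
    intro o v h
    rcases List.mem_cons.1 h with h | h
    · simp at h
    · exact ih o v h
  | @write q σ o' v' q' l h _ ih =>
    intro o v h'
    rcases List.mem_cons.1 h' with h' | h'
    · simp only [Sum.inr.injEq, Prod.mk.injEq] at h'
      obtain ⟨rfl, rfl⟩ := h'
      exact ⟨q, q', h⟩
    · exact ih o v h'
  | push _ _ ih => exact ih
  | pop _ _ ih => exact ih

theorem Right.card_le {κ : Type} [Fintype κ] {P : Prog ι ω α} {X : Ω → ι → α} {f : Ω → ω → α}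
    {Cnt : ω → Prop} {T : ℕ} {y : Ω} (h : Right P X f Cnt T y) (o : κ → ω)
    (ho : Function.Injective o) (hc : ∀ k, Cnt (o k)) :
    Fintype.card κ ≤ Fintype.card P.State ∧ Fintype.card κ ≤ T := by
  classical
  obtain ⟨l, h1, h2, h3, h4⟩ := h
  constructor
  · choose p hp using fun k => runs_node h1 (o k) (f y (o k)) (h4 _ (hc k))
    choose q hq using hp
    refine Fintype.card_le_of_injective p ?_
    intro k k' hk
    have e1 := hq k
    rw [hk, hq k'] at e1
    simp only [Act.write.injEq] at e1
    exact ho e1.1.symm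
  · refine le_trans ?_ h2
    have h5 : (univ : Finset κ).image (fun k => (.inr (o k, f y (o k)) : ι ⊕ (ω × α))) ⊆
        l.toFinset := by
      intro e he
      rw [mem_image] at he
      obtain ⟨k, -, rfl⟩ := he
      exact List.mem_toFinset.2 (h4 _ (hc k))
    have h6 := card_le_card h5
    rw [card_image_of_injective _ (fun k k' h => by
      simp only [Sum.inr.injEq, Prod.mk.injEq] at h; exact ho h.1), card_univ] at h6
    exact h6.trans (List.toFinset_card_le l)

end Pool.Agent.TH706.ST
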