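import Pool.Agent.TH706.ST.Cnf

/-!
# Finding satisfying assignments with a stack: the final form
-/

set_option autoImplicit false

open Finset

namespace Pool.Agent.TH706.ST

open Pool.Agent.W896.MO

/-- Averaging over the random choices. -/
theorem average {R Ω : Type} [Fintype R] [Fintype Ω] [Nonempty R] (A : R → Ω → Prop) (c : ℕ)
    (h : Nat.card R * Nat.card Ω ≤ c * Nat.card {u : R × Ω // A u.1 u.2}) :
    ∃ r, Nat.card Ω ≤ c * Nat.card {y // A r y} := by
  classical
  by_contra hc
  push Not at hc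
  have e1 : Nat.card {u : R × Ω // A u.1 u.2} = ∑ r, Nat.card {y // A r y} := by
    rw [Nat.card_eq_fintype_card, Fintype.card_subtype, card_filter, Fintype.sum_prod_type]
    refine sum_congr rfl (fun r _ => ?_)
    rw [Nat.card_eq_fintype_card, Fintype.card_subtype, card_filter]
  rw [e1, mul_sum] at h
  have h2 : ∑ r : R, c * Nat.card {y // A r y} < ∑ _r : R, Nat.card Ω :=
    sum_lt_sum_of_nonempty univ_nonempty (fun r _ => hc r)
  rw [sum_const, card_univ, smul_eq_mul, ← Nat.card_eq_fintype_card] at h2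
  omega

/-- Names and positions. -/
theorem exists_places {A B : Type} [Fintype A] [Fintype B] [Nonempty B] {ℓ M : ℕ}
    (hA : Fintype.card A ≤ 2 ^ ℓ) (hB : Fintype.card B ≤ M) :
    (∃ nm : A → Fin ℓ → Bool, Function.Injective nm) ∧
      ∃ idx : Fin M → B, Function.Surjective idx := by
  constructor
  · have h1 : Fintype.card A ≤ Fintype.card (Fin ℓ → Bool) := by
      rw [Fintype.card_fun, Fintype.card_bool, Fintype.card_fin]
      exact hA
    obtain ⟨e⟩ := Function.Embedding.nonempty_of_card_le h1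
    exact ⟨e, e.injective⟩
  · have h1 : Fintype.card B ≤ Fintype.card (Fin M) := by
      rw [Fintype.card_fin]
      exact hB
    obtain ⟨e⟩ := Function.Embedding.nonempty_of_card_le h1
    exact ⟨Function.invFun e, Function.invFun_surjective e.injective⟩

/-- The formula all of whose literals are the same variable. -/
def triv (M ℓ : ℕ) : Idx M ℓ → Bool := fun i => match i.2.2 with
  | none => true
  | some _ => false

theorem triv_sat {M ℓ : ℕ} (hM : 1 ≤ M) (α : (Fin ℓ → Bool) → Bool) :
    Sat (triv M ℓ) α ↔ α (fun _ => false) = true := by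
  constructor
  · intro h
    obtain ⟨p, hp⟩ := h ⟨0, hM⟩
    exact hp
  · intro h c
    exact ⟨0, h⟩

theorem triv_unique {M ℓ : ℕ} (hM : 1 ≤ M) : UniqueSat (triv M ℓ) := by
  refine ⟨fun _ => true, (triv_sat hM _).2 rfl, ?_⟩
  rintro β hβ _ ⟨c, p, rfl⟩
  exact (triv_sat hM _).1 hβ

theorem finds_pos {M ℓ : ℕ} (hM : 1 ≤ M) {P : Prog (Idx M ℓ) (Fin ℓ → Bool) Bool}
    {w : Idx M ℓ → Bool} {T : ℕ} (h : Finds P w T) : 1 ≤ T := by
  obtain ⟨l, -, h2, α, -, -, h5⟩ := h
  have h6 := h5 (name w ⟨0, hM⟩ 0) ⟨_, _, rfl⟩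
  have h7 := List.length_pos_of_mem h6
  omega

open Classical in
/-- **Finding satisfying assignments with a stack**: reads and writes times memory. -/
theorem find_main : ∃ D : ℕ, 0 < D ∧ ∀ M ℓ : ℕ, 1 ≤ M → M ≤ 2 ^ ℓ →
    ∃ W : Finset (Idx M ℓ → Bool), W.Nonempty ∧ (∀ w ∈ W, UniqueSat w) ∧
      ∀ (T π : ℕ) (R : Type) [Fintype R] [Nonempty R]
        (P : R → Prog (Idx M ℓ) (Fin ℓ → Bool) Bool),
        Nat.card R * W.card ≤ 2 ^ π * Nat.card {u : R × W // Finds (P u.1) u.2.1 T} →
        ∃ r, M ^ 2 ≤ D * (T * (Nat.log 2 (Fintype.card (P r).State) + π + 1)) := by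
  refine ⟨2 ^ 51, by norm_num, ?_⟩
  intro M ℓ hM hℓ
  by_cases hsmall : M < 264
  · refine ⟨{triv M ℓ}, singleton_nonempty _, ?_, ?_⟩
    · intro w hw
      rw [mem_singleton] at hw
      rw [hw]
      exact triv_unique hM
    · intro T π R _ _ P hc
      have hT : 1 ≤ T := by
        by_contra hT0
        have h1 : IsEmpty {u : R × ({triv M ℓ} : Finset (Idx M ℓ → Bool)) //
            Finds (P u.1) u.2.1 T} := ⟨fun u => hT0 (finds_pos hM u.2)⟩
        rw [@Nat.card_of_isEmpty _ h1, card_singleton, mul_one, mul_zero] at hc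
        have h2 : 0 < Nat.card R := Nat.card_pos
        omega
      obtain ⟨r⟩ := (inferInstance : Nonempty R)
      refine ⟨r, ?_⟩
      calc M ^ 2 ≤ 264 ^ 2 := Nat.pow_le_pow_left hsmall.le 2
        _ ≤ 2 ^ 51 * (1 * 1) := by norm_num
        _ ≤ _ := by
            apply Nat.mul_le_mul_left
            exact Nat.mul_le_mul hT (by omega)
  · push Not at hsmall
    obtain ⟨n, hn⟩ : ∃ n, n = M / 264 := ⟨_, rfl⟩
    have hn1 : 1 ≤ n := by omega
    have hMn : 264 * n ≤ M := by omega
    have hMn' : M ≤ 2 ^ 9 * n + 2 ^ 4 * n := by omega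
    obtain ⟨h, hE, hI⟩ := exists_sys n
    have hne : Nonempty (Cl n) := ⟨((0, ⟨0, hn1⟩), none)⟩
    obtain ⟨⟨nm, hnm⟩, idx, hidx⟩ := exists_places (A := Vr n) (B := Cl n) (ℓ := ℓ) (M := M)
      (by
        simp only [Vr, Row, Fintype.card_sum, Fintype.card_prod, Fintype.card_fin]
        omega)
      (by
        simp only [Cl, Row, Fintype.card_prod, Fintype.card_option, Fintype.card_fin]
        omega)
    have hinj := form_inj hI nm hidx
    refine ⟨univ.image (form h nm idx), ⟨_, mem_image_of_mem _ (mem_univ 0)⟩, ?_, ?_⟩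
    · intro w hw
      rw [mem_image] at hw
      obtain ⟨y, -, rfl⟩ := hw
      refine ⟨fun v => Function.extend nm (sol h y) (fun _ => false) v, ?_, ?_⟩
      · rw [form_sat hI nm hidx]
        intro v
        exact hnm.extend_apply _ _ v
      · intro β hβ v hv
        obtain ⟨u, rfl⟩ := inst_occurs' h nm idx _ hv
        rw [(form_sat hI nm hidx y β).1 hβ u]
        exact (hnm.extend_apply _ _ u).symm
    · intro T π R _ _ P hc
      obtain ⟨r, hr⟩ := average (fun r (w : (univ.image (form (M := M) h nm idx) :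
        Finset (Idx M ℓ → Bool))) => Finds (P r) w.1 T) (2 ^ π) (by
          rw [Nat.card_eq_fintype_card (α := (univ.image (form (M := M) h nm idx) :
            Finset (Idx M ℓ → Bool))), Fintype.card_coe]
          exact hc)
      refine ⟨r, ?_⟩
      let e : (Fin n → ZMod 2) ≃ (univ.image (form (M := M) h nm idx) :
          Finset (Idx M ℓ → Bool)) :=
        Equiv.ofBijective (fun y => ⟨form h nm idx y, mem_image_of_mem _ (mem_univ _)⟩)
          ⟨fun y y' hy => hinj (congrArg Subtype.val hy), fun w => by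
            obtain ⟨w, hw⟩ := w
            rw [mem_image] at hw
            obtain ⟨y, -, rfl⟩ := hw
            exact ⟨y, rfl⟩⟩
      have h1 : Nat.card (univ.image (form (M := M) h nm idx) :
          Finset (Idx M ℓ → Bool)) = 2 ^ n := by
        rw [← Nat.card_congr e, Nat.card_eq_fintype_card, Fintype.card_fun, Fintype.card_fin,
          ZMod.card]
      have h2 : Nat.card {w : (univ.image (form (M := M) h nm idx) :
          Finset (Idx M ℓ → Bool)) // Finds (P r) w.1 T} =
          (univ.filter (fun y => Finds (P r) (form h nm idx y) T)).card := by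
        rw [← Fintype.card_subtype, ← Nat.card_eq_fintype_card]
        exact (Nat.card_congr (Equiv.subtypeEquiv e (fun y => Iff.rfl))).symm
      rw [h1, h2] at hr
      have h3 := finds_core hE hI hnm hidx (P r) T π hr
      calc M ^ 2 ≤ (2 ^ 9 * n + 2 ^ 4 * n) ^ 2 := Nat.pow_le_pow_left hMn' 2
        _ ≤ 2 ^ 19 * n ^ 2 := by nlinarith
        _ ≤ 2 ^ 19 * (2 ^ 32 * (T * (Nat.log 2 (Fintype.card (P r).State) + π + 1))) :=
            Nat.mul_le_mul_left _ h3
        _ = _ := by ring

end Pool.Agent.TH706.ST
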