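import Pool.Agent.TH706.ST.Bits

/-!
# The upper half of the digits of `a x + b` modulo a power of two is hard to predict

This is the method of Mansour, Nisan and Tiwari (universal hashing): the residues `a x + b` for
different `x` are nearly pairwise independent, for random `a` and `b`.
-/

set_option autoImplicit false

open Finset

namespace Pool.Agent.TH706.ST

variable {m : ℕ}

/-- The linear function of `a` and `b` given by `x`. -/
def evalAt (x : ZMod (2 ^ (2 * m))) :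
    ZMod (2 ^ (2 * m)) × ZMod (2 ^ (2 * m)) →+ ZMod (2 ^ (2 * m)) where
  toFun p := p.1 * x + p.2
  map_zero' := by simp
  map_add' p q := by simp only [Prod.fst_add, Prod.snd_add]; ring

/-- The digits of `a x + b` in `R` are those of `v`. -/
def Hit (R : Finset ℕ) (v : ℕ → Bool) (p : ZMod (2 ^ (2 * m)) × ZMod (2 ^ (2 * m)))
    (x : ZMod (2 ^ (2 * m))) : Prop := ∀ i ∈ R, dig (p.1 * x + p.2) i = v i

theorem exists_mul_eq {δ : ZMod (2 ^ (2 * m))} (hδ : ¬ 2 ^ m ∣ δ.val) {j : ℕ} (hj : m ≤ j) :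
    ∃ c, c * δ = 2 ^ j := by
  have hN : NeZero (2 ^ (2 * m)) := ⟨by positivity⟩
  have h0 : δ.val ≠ 0 := by
    intro h
    rw [h] at hδ
    exact hδ (dvd_zero _)
  obtain ⟨k, e, he, hk⟩ := Nat.exists_eq_two_pow_mul_odd h0
  have hkm : k < m := by
    by_contra h
    push Not at h
    apply hδ
    rw [hk]
    exact Dvd.dvd.mul_right (pow_dvd_pow 2 h) e
  have hunit : IsUnit ((e : ℕ) : ZMod (2 ^ (2 * m))) := by
    rw [ZMod.isUnit_iff_coprime]
    exact Nat.Coprime.pow_right _ (Nat.coprime_two_right.2 he)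
  obtain ⟨u, hu⟩ := hunit
  refine ⟨(u⁻¹ : (ZMod (2 ^ (2 * m)))ˣ) * 2 ^ (j - k), ?_⟩
  have h1 : δ = 2 ^ k * (u : ZMod (2 ^ (2 * m))) := by
    rw [hu, ← ZMod.natCast_zmod_val δ, hk]
    push_cast
    ring
  rw [h1]
  calc (u⁻¹ : (ZMod (2 ^ (2 * m)))ˣ) * 2 ^ (j - k) * (2 ^ k * (u : ZMod (2 ^ (2 * m)))) =
      ((u⁻¹ : (ZMod (2 ^ (2 * m)))ˣ) * (u : ZMod (2 ^ (2 * m)))) * (2 ^ (j - k) * 2 ^ k) := by
        ring
    _ = 2 ^ j := by
        rw [Units.inv_mul, one_mul, ← pow_add]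
        congr 1
        omega

open Classical in
theorem hit_one (R : Finset ℕ) (hR : ∀ i ∈ R, m ≤ i ∧ i < 2 * m) (v : ℕ → Bool)
    (x : ZMod (2 ^ (2 * m))) :
    (univ.filter (fun p => Hit R v p x)).card * 2 ^ R.card = (2 ^ (2 * m)) ^ 2 := by
  have hN : NeZero (2 ^ (2 * m)) := ⟨by positivity⟩
  have h1 := hom_count (fun _ : Unit => evalAt x) (univ ×ˢ R) (by
    rintro ⟨t, i⟩ hp
    rw [mem_product] at hp
    exact (hR i hp.2).2) (by
    rintro ⟨t, i⟩ hp
    refine ⟨(0, 2 ^ i), ?_, ?_⟩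
    · simp [evalAt]
    · rintro ⟨t', i'⟩ _ h
      exact absurd rfl h) (fun p => v p.2)
  rw [card_product, card_univ, Fintype.card_unit, one_mul, Fintype.card_prod, ZMod.card] at h1
  rw [sq, ← h1]
  congr 2
  apply filter_congr
  intro p _
  unfold Hit
  constructor
  · rintro h ⟨t, i⟩ hp
    rw [mem_product] at hp
    exact h i hp.2
  · intro h i hi
    exact h ((), i) (by rw [mem_product]; exact ⟨mem_univ _, hi⟩)

open Classical in
theorem hit_two (R : Finset ℕ) (hR : ∀ i ∈ R, m ≤ i ∧ i < 2 * m) (v : ℕ → Bool)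
    {x x' : ZMod (2 ^ (2 * m))} (hx : ¬ 2 ^ m ∣ (x - x').val) :
    (univ.filter (fun p => Hit R v p x ∧ Hit R v p x')).card * 2 ^ (2 * R.card) =
      (2 ^ (2 * m)) ^ 2 := by
  have hN : NeZero (2 ^ (2 * m)) := ⟨by positivity⟩
  have h1 := hom_count (fun t : Bool => evalAt (if t = true then x else x')) (univ ×ˢ R) (by
    rintro ⟨t, i⟩ hp
    rw [mem_product] at hp
    exact (hR i hp.2).2) (by
    rintro ⟨t, i⟩ hp
    rw [mem_product] at hp
    obtain ⟨c, hc⟩ := exists_mul_eq hx (hR i hp.2).1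
    cases t
    · refine ⟨(-c, c * x), ?_, ?_⟩
      · simp only [evalAt, AddMonoidHom.coe_mk, ZeroHom.coe_mk, Bool.false_eq_true, if_false]
        rw [← hc]
        ring
      · rintro ⟨t', i'⟩ _ h
        cases t'
        · exact absurd rfl h
        · simp only [evalAt, AddMonoidHom.coe_mk, ZeroHom.coe_mk, if_true]
          ring
    · refine ⟨(c, -(c * x')), ?_, ?_⟩
      · simp only [evalAt, AddMonoidHom.coe_mk, ZeroHom.coe_mk, if_true]
        rw [← hc]
        ring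
      · rintro ⟨t', i'⟩ _ h
        cases t'
        · simp only [evalAt, AddMonoidHom.coe_mk, ZeroHom.coe_mk, Bool.false_eq_true, if_false]
          ring
        · exact absurd rfl h) (fun p => v p.2)
  rw [card_product, card_univ, Fintype.card_bool, Fintype.card_prod, ZMod.card] at h1
  rw [sq, ← h1]
  congr 2
  apply filter_congr
  intro p _
  unfold Hit
  constructor
  · rintro ⟨h, h'⟩ ⟨t, i⟩ hp
    rw [mem_product] at hp
    cases t
    · exact h' i hp.2
    · exact h i hp.2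
  · intro h
    constructor
    · intro i hi
      exact h (true, i) (by rw [mem_product]; exact ⟨mem_univ _, hi⟩)
    · intro i hi
      exact h (false, i) (by rw [mem_product]; exact ⟨mem_univ _, hi⟩)

open Classical in
theorem near_count (Xs : Finset (ZMod (2 ^ (2 * m)))) (x : ZMod (2 ^ (2 * m))) :
    (Xs.filter (fun x' => 2 ^ m ∣ (x - x').val)).card ≤ 2 ^ m := by
  have hN : NeZero (2 ^ (2 * m)) := ⟨by positivity⟩
  have h1 : (Xs.filter (fun x' => 2 ^ m ∣ (x - x').val)).card ≤ (range (2 ^ m)).card := by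
    apply card_le_card_of_injOn (fun x' => (x - x').val / 2 ^ m)
    · intro x' hx'
      rw [mem_coe, mem_range]
      rw [Nat.div_lt_iff_lt_mul (by positivity), ← pow_add, ← two_mul]
      exact ZMod.val_lt _
    · intro x' hx' x'' hx'' h
      rw [mem_coe, mem_filter] at hx' hx''
      simp only at h
      have h2 : (x - x').val = (x - x'').val := by
        rw [← Nat.div_mul_cancel hx'.2, ← Nat.div_mul_cancel hx''.2, h]
      have h3 := ZMod.val_injective _ h2
      exact sub_right_injective h3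
  rwa [card_range] at h1

open Classical in
/-- **Prediction of digits of `a x + b`**, when `(a, b)` and `x` are in large sets. -/
theorem hash_bound (R : Finset ℕ) (hR : ∀ i ∈ R, m ≤ i ∧ i < 2 * m) (v : ℕ → Bool)
    (AB : Finset (ZMod (2 ^ (2 * m)) × ZMod (2 ^ (2 * m)))) (Xs : Finset (ZMod (2 ^ (2 * m))))
    (hbig : 2 ^ (m + 2 * (2 * m) + R.card) ≤ AB.card * Xs.card) :
    2 ^ R.card * ((AB ×ˢ Xs).filter (fun q => Hit R v q.1 q.2)).card ≤
      2 * (AB.card * Xs.card) := by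
  have hN : NeZero (2 ^ (2 * m)) := ⟨by positivity⟩
  obtain ⟨r, hr⟩ : ∃ r, r = R.card := ⟨_, rfl⟩
  rw [← hr] at hbig ⊢
  obtain ⟨N, hNN⟩ : ∃ N : ℝ, N = 2 ^ (2 * m) := ⟨_, rfl⟩
  obtain ⟨ρ, hρ⟩ : ∃ ρ : ℝ, ρ = (1 / 2) ^ r := ⟨_, rfl⟩
  have hρ0 : 0 < ρ := by rw [hρ]; positivity
  have hρ2 : ρ * 2 ^ r = 1 := by rw [hρ, ← mul_pow]; norm_num
  have hN0 : 0 < N := by rw [hNN]; positivity
  obtain ⟨cnt, hcnt⟩ : ∃ cnt : ZMod (2 ^ (2 * m)) × ZMod (2 ^ (2 * m)) → ℝ,
      ∀ p, cnt p = ((Xs.filter (fun x => Hit R v p x)).card : ℝ) := ⟨_, fun _ => rfl⟩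
  have hcnt' : ∀ p, cnt p = ∑ x ∈ Xs, if Hit R v p x then (1 : ℝ) else 0 := by
    intro p
    rw [hcnt, card_filter]
    push_cast
    rfl
  -- first moment
  have h1 : ∀ x : ZMod (2 ^ (2 * m)),
      ((univ.filter (fun p => Hit R v p x)).card : ℝ) = ρ * N ^ 2 := by
    intro x
    have h := hit_one R hR v x
    have h' : ((univ.filter (fun p => Hit R v p x)).card : ℝ) * 2 ^ r = N ^ 2 := by
      rw [hNN, hr]
      exact_mod_cast h
    calc ((univ.filter (fun p => Hit R v p x)).card : ℝ) =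
        ((univ.filter (fun p => Hit R v p x)).card : ℝ) * (ρ * 2 ^ r) := by rw [hρ2, mul_one]
      _ = ρ * (((univ.filter (fun p => Hit R v p x)).card : ℝ) * 2 ^ r) := by ring
      _ = _ := by rw [h']
  have m1 : ∑ p, cnt p = ρ * Xs.card * N ^ 2 := by
    simp_rw [hcnt']
    rw [sum_comm]
    have : ∀ x ∈ Xs, ∑ p, (if Hit R v p x then (1 : ℝ) else 0) = ρ * N ^ 2 := by
      intro x _
      rw [← h1 x, card_filter]
      push_cast
      rfl
    rw [sum_congr rfl this, sum_const, nsmul_eq_mul]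
    ring
  -- second moment
  have h2 : ∀ x x' : ZMod (2 ^ (2 * m)),
      ((univ.filter (fun p => Hit R v p x ∧ Hit R v p x')).card : ℝ) ≤
      ρ ^ 2 * N ^ 2 + if 2 ^ m ∣ (x - x').val then ρ * N ^ 2 else 0 := by
    intro x x'
    split_ifs with hx
    · have h3 : ((univ.filter (fun p => Hit R v p x ∧ Hit R v p x')).card : ℝ) ≤
          ((univ.filter (fun p => Hit R v p x)).card : ℝ) := by
        exact_mod_cast card_le_card (fun p hp => by
          rw [mem_filter] at hp ⊢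
          exact ⟨hp.1, hp.2.1⟩)
      rw [h1] at h3
      have : 0 ≤ ρ ^ 2 * N ^ 2 := by positivity
      linarith
    · have h := hit_two R hR v hx
      have h' : ((univ.filter (fun p => Hit R v p x ∧ Hit R v p x')).card : ℝ) *
          (2 ^ r) ^ 2 = N ^ 2 := by
        rw [hNN, hr, ← pow_mul, mul_comm R.card 2]
        exact_mod_cast h
      rw [add_zero]
      apply le_of_eq
      calc ((univ.filter (fun p => Hit R v p x ∧ Hit R v p x')).card : ℝ) =
          ((univ.filter (fun p => Hit R v p x ∧ Hit R v p x')).card : ℝ) * (ρ * 2 ^ r) ^ 2 := by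
            rw [hρ2, one_pow, mul_one]
        _ = ρ ^ 2 * (((univ.filter (fun p => Hit R v p x ∧ Hit R v p x')).card : ℝ) *
            (2 ^ r) ^ 2) := by ring
        _ = _ := by rw [h']
  have m2 : ∑ p, cnt p ^ 2 ≤ (Xs.card : ℝ) ^ 2 * (ρ ^ 2 * N ^ 2) +
      Xs.card * (2 ^ m * (ρ * N ^ 2)) := by
    have e1 : ∀ p, cnt p ^ 2 = ∑ x ∈ Xs, ∑ x' ∈ Xs,
        if Hit R v p x ∧ Hit R v p x' then (1 : ℝ) else 0 := by
      intro p
      rw [sq, hcnt', sum_mul_sum]
      refine sum_congr rfl (fun x _ => sum_congr rfl (fun x' _ => ?_))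
      by_cases a : Hit R v p x <;> by_cases b : Hit R v p x' <;> simp [a, b]
    have e2 : ∑ p, cnt p ^ 2 = ∑ x ∈ Xs, ∑ x' ∈ Xs,
        ((univ.filter (fun p => Hit R v p x ∧ Hit R v p x')).card : ℝ) := by
      simp_rw [e1]
      rw [sum_comm]
      refine sum_congr rfl (fun x _ => ?_)
      rw [sum_comm]
      refine sum_congr rfl (fun x' _ => ?_)
      rw [card_filter]
      push_cast
      rfl
    rw [e2]
    calc _ ≤ ∑ x ∈ Xs, ∑ x' ∈ Xs, (ρ ^ 2 * N ^ 2 +
          if 2 ^ m ∣ (x - x').val then ρ * N ^ 2 else 0) :=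
          sum_le_sum (fun x _ => sum_le_sum (fun x' _ => h2 x x'))
      _ = ∑ x ∈ Xs, (Xs.card * (ρ ^ 2 * N ^ 2) +
          (Xs.filter (fun x' => 2 ^ m ∣ (x - x').val)).card * (ρ * N ^ 2)) := by
          refine sum_congr rfl (fun x _ => ?_)
          rw [sum_add_distrib, sum_const, nsmul_eq_mul, ← sum_filter, sum_const, nsmul_eq_mul]
      _ ≤ ∑ _x ∈ Xs, (Xs.card * (ρ ^ 2 * N ^ 2) + 2 ^ m * (ρ * N ^ 2)) := by
          refine sum_le_sum (fun x _ => ?_)
          have h3 : ((Xs.filter (fun x' => 2 ^ m ∣ (x - x').val)).card : ℝ) ≤ 2 ^ m := by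
            exact_mod_cast near_count Xs x
          gcongr
      _ = _ := by rw [sum_const, nsmul_eq_mul]; ring
  -- variance
  have cardG : (Fintype.card (ZMod (2 ^ (2 * m)) × ZMod (2 ^ (2 * m))) : ℝ) = N ^ 2 := by
    rw [Fintype.card_prod, ZMod.card, hNN]
    push_cast
    ring
  have var : ∑ p, (cnt p - ρ * Xs.card) ^ 2 ≤ Xs.card * (2 ^ m * (ρ * N ^ 2)) := by
    have e1 : ∑ p, (cnt p - ρ * Xs.card) ^ 2 = ∑ p, cnt p ^ 2 -
        2 * (ρ * Xs.card) * ∑ p, cnt p + N ^ 2 * (ρ * Xs.card) ^ 2 := by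
      rw [mul_sum, ← sum_sub_distrib, ← cardG, ← card_univ, ← nsmul_eq_mul, ← sum_const,
        ← sum_add_distrib]
      refine sum_congr rfl (fun p _ => ?_)
      ring
    rw [e1, m1]
    nlinarith [m2]
  obtain ⟨S, hS⟩ : ∃ S, S = ∑ p ∈ AB, (cnt p - ρ * Xs.card) := ⟨_, rfl⟩
  have hS2 : S ^ 2 ≤ (ρ * (AB.card * Xs.card)) ^ 2 := by
    have e1 : S ^ 2 ≤ AB.card * ∑ p ∈ AB, (cnt p - ρ * Xs.card) ^ 2 := by
      rw [hS]
      exact sq_sum_le_card_mul_sum_sq
    have e2 : ∑ p ∈ AB, (cnt p - ρ * Xs.card) ^ 2 ≤ ∑ p, (cnt p - ρ * Xs.card) ^ 2 :=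
      sum_le_sum_of_subset_of_nonneg (subset_univ _) (fun p _ _ => sq_nonneg _)
    have e3 : (2 : ℝ) ^ m * N ^ 2 * 2 ^ r ≤ AB.card * Xs.card := by
      have : (2 : ℝ) ^ (m + 2 * (2 * m) + r) ≤ AB.card * Xs.card := by exact_mod_cast hbig
      calc (2 : ℝ) ^ m * N ^ 2 * 2 ^ r = 2 ^ (m + 2 * (2 * m) + r) := by
            rw [hNN, pow_add, pow_add, pow_mul 2 2 (2 * m), ← pow_mul, ← pow_mul]
            congr 3
            ring
        _ ≤ _ := this
    calc S ^ 2 ≤ AB.card * (Xs.card * (2 ^ m * (ρ * N ^ 2))) :=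
          e1.trans (mul_le_mul_of_nonneg_left (e2.trans var) (Nat.cast_nonneg _))
      _ = (AB.card * Xs.card) * ρ ^ 2 * (2 ^ m * N ^ 2 * 2 ^ r) := by
          have : ρ = ρ ^ 2 * 2 ^ r := by rw [sq, mul_assoc, hρ2, mul_one]
          calc (AB.card : ℝ) * (Xs.card * (2 ^ m * (ρ * N ^ 2))) =
              AB.card * Xs.card * 2 ^ m * N ^ 2 * ρ := by ring
            _ = AB.card * Xs.card * 2 ^ m * N ^ 2 * (ρ ^ 2 * 2 ^ r) := by rw [← this]
            _ = _ := by ring
      _ ≤ (AB.card * Xs.card) * ρ ^ 2 * (AB.card * Xs.card) :=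
          mul_le_mul_of_nonneg_left e3 (by positivity)
      _ = _ := by ring
  have hS3 : S ≤ ρ * (AB.card * Xs.card) := by
    by_contra h
    push Not at h
    have h0 : 0 ≤ ρ * ((AB.card : ℝ) * Xs.card) := by positivity
    nlinarith
  have hsum : (((AB ×ˢ Xs).filter (fun q => Hit R v q.1 q.2)).card : ℝ) = ∑ p ∈ AB, cnt p := by
    rw [card_filter, sum_product]
    push_cast
    exact sum_congr rfl (fun p _ => (hcnt' p).symm)
  have hfin : (((AB ×ˢ Xs).filter (fun q => Hit R v q.1 q.2)).card : ℝ) ≤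
      2 * (ρ * (AB.card * Xs.card)) := by
    have e1 : S = ∑ p ∈ AB, cnt p - AB.card * (ρ * Xs.card) := by
      rw [hS, sum_sub_distrib, sum_const, nsmul_eq_mul]
    rw [hsum]
    have e2 : ∑ p ∈ AB, cnt p = S + AB.card * (ρ * Xs.card) := by rw [e1]; ring
    rw [e2]
    nlinarith
  have hfin2 : (2 : ℝ) ^ r * (((AB ×ˢ Xs).filter (fun q => Hit R v q.1 q.2)).card : ℝ) ≤
      2 * (AB.card * Xs.card) := by
    calc _ ≤ (2 : ℝ) ^ r * (2 * (ρ * (AB.card * Xs.card))) :=
          mul_le_mul_of_nonneg_left hfin (by positivity)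
      _ = 2 * (ρ * 2 ^ r) * (AB.card * Xs.card) := by ring
      _ = _ := by rw [hρ2, mul_one]
  exact_mod_cast hfin2

end Pool.Agent.TH706.ST
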