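import Pool.Agent.TH706.ST.Cover
import Pool.Agent.TH706.ST.Hash

/-!
# Integer multiplication with a stack: the trade-off for the digits of `a x + b`
-/

set_option autoImplicit false

open Finset

namespace Pool.Agent.TH706.ST

open Pool.Agent.W896.MO

/-- Triples of numbers with `2 m` digits, as residues. -/
abbrev Tri (m : ℕ) : Type := Fin 3 → ZMod (2 ^ (2 * m))

variable {m : ℕ}

/-- The number `a x + b`, as a residue. -/
def muladd (y : Tri m) : ZMod (2 ^ (2 * m)) := y 0 * y 1 + y 2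

open Classical in
theorem class_card (Q : Finset (Fin 3 × Fin (2 * m))) (y : Tri m) :
    (univ.filter (fun y' : Tri m => ∀ p ∈ Q, dig (y' p.1) p.2 = dig (y p.1) p.2)).card *
      2 ^ Q.card = (2 ^ (2 * m)) ^ 3 := by
  have hN : NeZero (2 ^ (2 * m)) := ⟨by positivity⟩
  have h1 := hom_count (fun t : Fin 3 => Pi.evalAddMonoidHom (fun _ => ZMod (2 ^ (2 * m))) t)
    (Q.image (fun p => (p.1, p.2.val))) (by
      intro p hp
      rw [mem_image] at hp
      obtain ⟨q, -, rfl⟩ := hp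
      exact q.2.isLt) (by
      intro p _
      refine ⟨Pi.single p.1 (2 ^ p.2), ?_, ?_⟩
      · simp
      · intro p' _ hne
        simp [hne]) (fun p => dig (y p.1) p.2)
  rw [card_image_of_injective _ (by
    rintro ⟨t, i⟩ ⟨t', i'⟩ h
    simp only [Prod.mk.injEq] at h
    exact Prod.ext h.1 (Fin.ext h.2)), Fintype.card_fun, Fintype.card_fin, ZMod.card] at h1
  rw [← h1]
  congr 2
  apply filter_congr
  intro y' _
  constructor
  · intro h p hp
    rw [mem_image] at hp
    obtain ⟨q, hq, rfl⟩ := hp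
    exact h q hq
  · intro h p hp
    exact h (p.1, p.2.val) (mem_image_of_mem _ hp)

open Classical in
theorem class_hit (Q : Finset (Fin 3 × Fin (2 * m))) (y : Tri m) (R : Finset ℕ)
    (hR : ∀ i ∈ R, m ≤ i ∧ i < 2 * m) (hQR : R.card + Q.card ≤ m) (v : ℕ → Bool) :
    2 ^ R.card * (univ.filter (fun y' : Tri m =>
      (∀ p ∈ Q, dig (y' p.1) p.2 = dig (y p.1) p.2) ∧ ∀ i ∈ R, dig (muladd y') i = v i)).card ≤
    2 * (univ.filter (fun y' : Tri m => ∀ p ∈ Q, dig (y' p.1) p.2 = dig (y p.1) p.2)).card := by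
  have hN : NeZero (2 ^ (2 * m)) := ⟨by positivity⟩
  obtain ⟨AB, hAB⟩ : ∃ AB : Finset (ZMod (2 ^ (2 * m)) × ZMod (2 ^ (2 * m))), AB =
    univ.filter (fun q => ∀ p ∈ Q, (p.1 = 0 → dig q.1 p.2 = dig (y 0) p.2) ∧
      (p.1 = 2 → dig q.2 p.2 = dig (y 2) p.2)) := ⟨_, rfl⟩
  obtain ⟨Xs, hXs⟩ : ∃ Xs : Finset (ZMod (2 ^ (2 * m))), Xs =
    univ.filter (fun x => ∀ p ∈ Q, p.1 = 1 → dig x p.2 = dig (y 1) p.2) := ⟨_, rfl⟩
  have key : ∀ (A : Tri m → Prop) (B : (ZMod (2 ^ (2 * m)) × ZMod (2 ^ (2 * m))) ×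
      ZMod (2 ^ (2 * m)) → Prop), (∀ y', A y' ↔ B ((y' 0, y' 2), y' 1)) →
      (univ.filter (fun y' : Tri m => (∀ p ∈ Q, dig (y' p.1) p.2 = dig (y p.1) p.2) ∧
        A y')).card = ((AB ×ˢ Xs).filter B).card := by
    intro A B hAB'
    have hiff : ∀ y' : Tri m, (∀ p ∈ Q, dig (y' p.1) p.2 = dig (y p.1) p.2) ↔
        ((y' 0, y' 2), y' 1) ∈ AB ×ˢ Xs := by
      intro y'
      rw [mem_product, hAB, hXs, mem_filter, mem_filter]
      constructor
      · intro h
        refine ⟨⟨mem_univ _, fun p hp => ⟨fun h0 => ?_, fun h2 => ?_⟩⟩, mem_univ _,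
          fun p hp h1 => ?_⟩
        · have := h p hp; rwa [h0] at this
        · have := h p hp; rwa [h2] at this
        · have := h p hp; rwa [h1] at this
      · rintro ⟨⟨-, h⟩, -, h'⟩ ⟨t, i⟩ hp
        have e1 := h _ hp
        have e2 := h' _ hp
        simp only at e1 e2 ⊢
        fin_cases t
        · exact e1.1 rfl
        · exact e2 rfl
        · exact e1.2 rfl
    refine card_bij' (fun y' _ => ((y' 0, y' 2), y' 1))
      (fun q _ => (![q.1.1, q.2, q.1.2] : Tri m)) ?_ ?_ ?_ ?_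
    · intro y' hy'
      rw [mem_filter] at hy' ⊢
      exact ⟨(hiff y').1 hy'.2.1, (hAB' y').1 hy'.2.2⟩
    · rintro ⟨⟨a, b⟩, x⟩ hq
      rw [mem_filter] at hq ⊢
      exact ⟨mem_univ _, (hiff ![a, x, b]).2 hq.1, (hAB' ![a, x, b]).2 hq.2⟩
    · intro y' _
      funext t
      fin_cases t <;> rfl
    · rintro ⟨⟨a, b⟩, x⟩ _
      rfl
  have h1 := key (fun y' => ∀ i ∈ R, dig (muladd y') i = v i) (fun q => Hit R v q.1 q.2)
    (fun y' => Iff.rfl)
  have h2 := key (fun _ => True) (fun _ => True) (fun y' => Iff.rfl)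
  simp only [and_true, filter_true, card_product] at h2
  have h3 := class_card Q y
  have h1' : (univ.filter (fun y' : Tri m =>
      (∀ p ∈ Q, dig (y' p.1) p.2 = dig (y p.1) p.2) ∧ ∀ i ∈ R, dig (muladd y') i = v i)).card =
      ((AB ×ˢ Xs).filter (fun q => Hit R v q.1 q.2)).card := by
    convert h1
  rw [h1', h2]
  apply hash_bound R hR v AB Xs
  rw [h2] at h3
  have h4 : 2 ^ (m + 2 * (2 * m) + R.card) * 2 ^ Q.card ≤ AB.card * Xs.card * 2 ^ Q.card := by
    rw [h3, ← pow_add, ← pow_mul]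
    exact Nat.pow_le_pow_right (by norm_num) (by omega)
  exact Nat.le_of_mul_le_mul_right h4 (by positivity)

open Classical in
/-- The count for one class. -/
theorem class_bound2 {ι ω α : Type} (X : Tri m → ι → α) (κ : ι → Option (Fin 3 × Fin (2 * m)))
    (hX : ∀ i y y', X y' i = X y i ↔ ∀ p, κ i = some p → dig (y' p.1) p.2 = dig (y p.1) p.2)
    (f : Tri m → ω → α) (o : Fin m → ω) (ho : Function.Injective o)
    (hf : ∀ y y' j, f y' (o j) = f y (o j) → dig (muladd y') (m + j) = dig (muladd y) (m + j))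
    (y : Tri m) (l : List (Option (Ev ι ω α))) (O : Finset ω) {N₁ : ℕ}
    (hl : N₁ + l.length ≤ m) (hN : N₁ ≤ O.card) (hO : ∀ u ∈ O, u ∈ Set.range o) :
    2 ^ N₁ * (univ.filter (fun y' => Agr' X l y y' ∧ ∀ u ∈ O, f y' u = f y u)).card ≤
      2 * (univ.filter (fun y' => Agr' X l y y')).card := by
  obtain ⟨Q, hQ⟩ : ∃ Q : Finset (Fin 3 × Fin (2 * m)), Q = univ.filter (fun r =>
    ∃ i, some (.inl i) ∈ l ∧ κ i = some r) := ⟨_, rfl⟩
  have hQc : Q.card ≤ l.length := by
    let g : Option (Ev ι ω α) → Option (Fin 3 × Fin (2 * m)) := fun e => match e with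
      | some (.inl i) => κ i
      | _ => none
    have h1 : Q.image some ⊆ (l.map g).toFinset := by
      intro e he
      rw [mem_image] at he
      obtain ⟨r, hr, rfl⟩ := he
      rw [hQ, mem_filter] at hr
      obtain ⟨-, i, hi, hi'⟩ := hr
      rw [List.mem_toFinset, List.mem_map]
      exact ⟨_, hi, hi'⟩
    have h2 := card_le_card h1
    rw [card_image_of_injective _ (Option.some_injective _)] at h2
    refine h2.trans ((List.toFinset_card_le _).trans ?_)
    rw [List.length_map]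
  obtain ⟨O', hO', hO'c⟩ := exists_subset_card_eq hN
  obtain ⟨J, hJ⟩ : ∃ J : Finset (Fin m), J = univ.filter (fun j => o j ∈ O') := ⟨_, rfl⟩
  have hJc : J.card = N₁ := by
    have : O' = J.image o := by
      ext u
      rw [mem_image]
      constructor
      · intro hu
        obtain ⟨j, rfl⟩ := hO u (hO' hu)
        exact ⟨j, by rw [hJ, mem_filter]; exact ⟨mem_univ _, hu⟩, rfl⟩
      · rintro ⟨j, hj, rfl⟩
        rw [hJ, mem_filter] at hj
        exact hj.2
    rw [← hO'c, this, card_image_of_injective _ ho]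
  obtain ⟨R, hR⟩ : ∃ R : Finset ℕ, R = J.image (fun j => m + j.val) := ⟨_, rfl⟩
  have hRc : R.card = N₁ := by
    rw [hR, card_image_of_injective _ (by
      intro j j' h
      exact Fin.ext (Nat.add_left_cancel h)), hJc]
  have hR' : ∀ i ∈ R, m ≤ i ∧ i < 2 * m := by
    intro i hi
    rw [hR, mem_image] at hi
    obtain ⟨j, -, rfl⟩ := hi
    have := j.isLt
    omega
  have h1 := class_hit Q y R hR' (by omega) (fun i => dig (muladd y) i)
  rw [hRc] at h1
  refine le_trans (Nat.mul_le_mul_left _ (card_le_card ?_))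
    (h1.trans (Nat.mul_le_mul_left _ (card_le_card ?_)))
  · intro z hz
    rw [mem_filter] at hz ⊢
    refine ⟨mem_univ _, ?_, ?_⟩
    · intro r hr
      rw [hQ, mem_filter] at hr
      obtain ⟨-, i, hi, hi'⟩ := hr
      exact (hX i y z).1 (hz.2.1 i hi) r hi'
    · intro i hi
      rw [hR, mem_image] at hi
      obtain ⟨j, hj, rfl⟩ := hi
      rw [hJ, mem_filter] at hj
      exact hf y z j (hz.2.2 _ (hO' hj.2))
  · intro z hz
    rw [mem_filter] at hz ⊢
    refine ⟨mem_univ _, ?_⟩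
    intro i hi
    rw [hX]
    intro r hr
    apply hz.2
    rw [hQ, mem_filter]
    exact ⟨mem_univ _, i, hi, hr⟩

open Classical in
/-- **The trade-off for multiplication.** The digits of `a`, `x` and `b` are (coded in) the input,
and the digits `m, ..., 2 m - 1` of `a x + b` are (coded in) outputs. -/
theorem core2 {ι ω α : Type} [Fintype ω] (X : Tri m → ι → α)
    (κ : ι → Option (Fin 3 × Fin (2 * m)))
    (hX : ∀ i y y', X y' i = X y i ↔ ∀ p, κ i = some p → dig (y' p.1) p.2 = dig (y p.1) p.2)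
    (f : Tri m → ω → α) (o : Fin m → ω) (ho : Function.Injective o)
    (hf : ∀ y y' j, f y' (o j) = f y (o j) → dig (muladd y') (m + j) = dig (muladd y) (m + j))
    (P : Prog ι ω α) (T π : ℕ) (Cnt : ω → Prop) (hC : ∀ u, Cnt u ↔ u ∈ Set.range o)
    (hc : Nat.card (Tri m) ≤ 2 ^ π * Nat.card {y // Right P X f Cnt T y}) :
    m ^ 2 ≤ 2 ^ 10 * (T * (Nat.log 2 (Fintype.card P.State) + π + 1)) := by
  have hNz : NeZero (2 ^ (2 * m)) := ⟨by positivity⟩
  rw [Nat.card_eq_fintype_card, Nat.card_eq_fintype_card, Fintype.card_subtype] at hc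
  obtain ⟨s, hs⟩ : ∃ s, s = Fintype.card P.State := ⟨_, rfl⟩
  have hG : 0 < Fintype.card (Tri m) := Fintype.card_pos
  obtain ⟨y₀, hy₀⟩ : ∃ y, Right P X f Cnt T y := by
    by_contra hcon
    push Not at hcon
    have : univ.filter (fun y => Right P X f Cnt T y) = ∅ := by
      rw [filter_eq_empty_iff]
      intro y _
      exact hcon y
    rw [this, card_empty, mul_zero] at hc
    omega
  obtain ⟨hns, hnT⟩ := hy₀.card_le o ho (fun k => (hC _).2 ⟨k, rfl⟩)
  rw [Fintype.card_fin, ← hs] at hns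
  rw [Fintype.card_fin] at hnT
  rw [← hs]
  have hbase : T ≤ T * (Nat.log 2 s + π + 1) := Nat.le_mul_of_pos_right _ (by omega)
  by_cases hn : m < 64
  · calc m ^ 2 = m * m := by ring
      _ ≤ 2 ^ 10 * (T * (Nat.log 2 s + π + 1)) := Nat.mul_le_mul (by omega) (hnT.trans hbase)
  by_cases hT2 : m ^ 2 ≤ T
  · calc m ^ 2 ≤ 1 * (T * (Nat.log 2 s + π + 1)) := by omega
      _ ≤ _ := Nat.mul_le_mul_right _ (by norm_num)
  push Not at hn hT2
  obtain ⟨a, ha⟩ : ∃ a, a = m / 8 := ⟨_, rfl⟩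
  obtain ⟨N₁, hN₁⟩ : ∃ N₁, N₁ = m / (T / a + 1) := ⟨_, rfl⟩
  have ha1 : 8 ≤ a := by omega
  have hlt : m < (T / a + 1) * (N₁ + 1) := by
    rw [hN₁]
    exact Nat.lt_mul_div_succ _ (Nat.succ_pos _)
  have hN2 : N₁ ≤ m / 2 := by
    rw [hN₁]
    apply Nat.div_le_div_left _ (by norm_num)
    have h8 : 1 ≤ T / a := by
      rw [Nat.le_div_iff_mul_le (by omega)]
      omega
    omega
  have hmain : N₁ ≤ π + 17 * (Nat.log 2 s + 1) + 1 := by
    rcases Nat.eq_zero_or_pos N₁ with h0 | hN1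
    · rw [h0]
      omega
    have hu := union_bound' P X f Cnt (a := a) (N₀ := m) (N₁ := N₁) (T := T)
      (K := 2 * Fintype.card (Tri m) / 2 ^ N₁) (by omega) hN1
      (by rw [hN₁]; exact Nat.mul_div_le _ _) (by
        refine le_trans (le_of_eq ?_) (card_le_card (s := univ.image o) ?_)
        · rw [card_image_of_injective _ ho, card_univ, Fintype.card_fin]
        · intro u hu
          rw [mem_image] at hu
          obtain ⟨j, -, rfl⟩ := hu
          rw [mem_filter]
          exact ⟨mem_univ _, (hC _).2 ⟨j, rfl⟩⟩) (by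
        intro Rel hRel
        rw [Nat.le_div_iff_mul_le (by positivity), mul_comm]
        obtain ⟨e, he⟩ : ∃ e, N₁ = e + 1 := ⟨N₁ - 1, by omega⟩
        have h1 := classes_good' X f Cnt hRel a N₁ (2 ^ e) (by
          intro y l O h2 h3 h4
          have h5 := class_bound2 X κ hX f o ho hf y l O (by omega) h3
            (fun u hu => (hC u).1 (h4 u hu))
          have h6 : ∀ A B : ℕ, 2 ^ N₁ * A ≤ 2 * B → 2 ^ e * A ≤ B := by
            intro A B h7
            rw [he, pow_succ] at h7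
            have h8 : 2 * (2 ^ e * A) ≤ 2 * B := le_trans (le_of_eq (by ring)) h7
            exact Nat.le_of_mul_le_mul_left h8 (by norm_num)
          convert h6 _ _ h5)
        have h7 : 2 ^ N₁ = 2 * 2 ^ e := by rw [he, pow_succ]; ring
        rw [h7, mul_assoc]
        exact Nat.mul_le_mul_left _ h1)
    rw [← hs] at hu
    have hs1 : 1 ≤ s := by omega
    have hTs : T + 1 ≤ s ^ 2 := by
      have h2 : m ^ 2 ≤ s ^ 2 := Nat.pow_le_pow_left hns 2
      omega
    have h1 : s * (T * s ^ 2 + 1) ^ 4 ≤ s ^ 17 := by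
      have h2 : T * s ^ 2 + 1 ≤ s ^ 4 := by
        have h3 : 1 ≤ s ^ 2 := Nat.one_le_pow _ _ hs1
        calc T * s ^ 2 + 1 ≤ T * s ^ 2 + s ^ 2 := Nat.add_le_add_left h3 _
          _ = (T + 1) * s ^ 2 := by ring
          _ ≤ s ^ 2 * s ^ 2 := Nat.mul_le_mul_right _ hTs
          _ = s ^ 4 := by ring
      calc s * (T * s ^ 2 + 1) ^ 4 ≤ s * (s ^ 4) ^ 4 :=
            Nat.mul_le_mul_left _ (Nat.pow_le_pow_left h2 4)
        _ = s ^ 17 := by ring
    have h2 : s ^ 17 ≤ 2 ^ (17 * (Nat.log 2 s + 1)) := by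
      calc s ^ 17 ≤ (2 ^ (Nat.log 2 s + 1)) ^ 17 :=
            Nat.pow_le_pow_left (Nat.lt_pow_succ_log_self (by norm_num) s).le _
        _ = _ := by rw [← pow_mul, mul_comm]
    have h3 : Fintype.card (Tri m) * 2 ^ N₁ ≤
        Fintype.card (Tri m) * 2 ^ (π + 17 * (Nat.log 2 s + 1) + 1) := by
      calc Fintype.card (Tri m) * 2 ^ N₁ ≤
          (2 ^ π * (s * (T * s ^ 2 + 1) ^ 4 * (2 * Fintype.card (Tri m) / 2 ^ N₁))) *
            2 ^ N₁ := Nat.mul_le_mul_right _ (hc.trans (Nat.mul_le_mul_left _ hu))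
        _ = 2 ^ π * (s * (T * s ^ 2 + 1) ^ 4) *
            (2 * Fintype.card (Tri m) / 2 ^ N₁ * 2 ^ N₁) := by ring
        _ ≤ 2 ^ π * 2 ^ (17 * (Nat.log 2 s + 1)) * (2 * Fintype.card (Tri m)) :=
            Nat.mul_le_mul (Nat.mul_le_mul_left _ (h1.trans h2)) (Nat.div_mul_le_self _ _)
        _ = _ := by rw [pow_add, pow_add]; ring
    have h4 := Nat.le_of_mul_le_mul_left h3 hG
    exact (Nat.pow_le_pow_iff_right (by norm_num)).1 h4
  have ha2 : m ≤ 16 * a := by omega
  have h1 : (T / a + 1) * a ≤ 2 * T := by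
    have h4 : T / a * a ≤ T := Nat.div_mul_le_self _ _
    calc (T / a + 1) * a = T / a * a + a := by ring
      _ ≤ T + T := Nat.add_le_add h4 (by omega)
      _ = 2 * T := by ring
  calc m ^ 2 = m * m := by ring
    _ ≤ (16 * a) * ((T / a + 1) * (N₁ + 1)) := Nat.mul_le_mul ha2 hlt.le
    _ = 16 * ((T / a + 1) * a) * (N₁ + 1) := by ring
    _ ≤ 16 * (2 * T) * (32 * (Nat.log 2 s + π + 1)) := by
        apply Nat.mul_le_mul (Nat.mul_le_mul_left _ h1)
        omega
    _ = 2 ^ 10 * (T * (Nat.log 2 s + π + 1)) := by ring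

end Pool.Agent.TH706.ST
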