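import Mathlib

/-!
# Sparse expanding systems of linear equations over the field with two elements

The unknowns are `y j`, `j : Fin n`. Equation `r = (a, j)` is `y j + ∑ t, y (h r t) = x r`, with
nine terms. If few equations have many neighbours then any few of the right hand sides tell
little about any set of unknowns.
-/

set_option autoImplicit false

open Finset Module

namespace Pool.Agent.TH706.ST

/-- The equations: eight for each unknown. -/
abbrev Row (n : ℕ) : Type := Fin 8 × Fin n

/-- A system: eight further unknowns in each equation. -/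
abbrev Sys (n : ℕ) : Type := Row n → Fin 8 → Fin n

variable {n : ℕ}

/-- The left hand side of equation `r`. -/
noncomputable def lin (h : Sys n) (r : Row n) : Dual (ZMod 2) (Fin n → ZMod 2) :=
  LinearMap.proj r.2 + ∑ t, LinearMap.proj (h r t)

theorem lin_apply (h : Sys n) (r : Row n) (y : Fin n → ZMod 2) :
    lin h r y = y r.2 + ∑ t, y (h r t) := by
  simp [lin]

/-- Any `k ≤ n / 2 ^ 22` equations contain at least `6 k` unknowns. -/
def Expands (h : Sys n) : Prop :=
  ∀ A : Finset (Row n), A.card * 2 ^ 22 ≤ n →
    6 * A.card ≤ (A.biUnion (fun r => univ.image (h r))).card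

/-- The right hand sides determine the unknowns. -/
def Inj (h : Sys n) : Prop := ∀ y : Fin n → ZMod 2, (∀ r, lin h r y = 0) → y = 0

/-- The number of occurrences of the unknown `j` in the equations `A`. -/
def occ (h : Sys n) (A : Finset (Row n)) (j : Fin n) : ℕ :=
  ∑ r ∈ A, ((if r.2 = j then 1 else 0) + ∑ t, if h r t = j then 1 else 0)

theorem sum_occ (h : Sys n) (A : Finset (Row n)) : ∑ j, occ h A j = 9 * A.card := by
  unfold occ
  rw [sum_comm]
  have : ∀ r ∈ A, ∑ j, ((if r.2 = j then 1 else 0) + ∑ t, if h r t = j then 1 else 0) = 9 := by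
    intro r _
    rw [sum_add_distrib, sum_comm]
    simp
  rw [sum_congr rfl this, sum_const, smul_eq_mul, mul_comm]

theorem sum_lin_single (h : Sys n) (A : Finset (Row n)) (j : Fin n) :
    (∑ r ∈ A, lin h r) (Pi.single j 1) = (occ h A j : ZMod 2) := by
  unfold occ
  rw [LinearMap.sum_apply]
  push_cast
  refine sum_congr rfl (fun r _ => ?_)
  rw [lin_apply]
  congr 1
  · simp [Pi.single_apply]
  · refine sum_congr rfl (fun t _ => ?_)
    simp [Pi.single_apply]

theorem expands_unique {h : Sys n} (hE : Expands h) (A : Finset (Row n))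
    (hA : A.card * 2 ^ 22 ≤ n) :
    3 * A.card ≤ (univ.filter (fun j => (∑ r ∈ A, lin h r) (Pi.single j 1) ≠ 0)).card := by
  have h1 := hE A hA
  have h2 := sum_occ h A
  have h3 : ∀ j, (if j ∈ A.biUnion (fun r => univ.image (h r)) then 2 else 0) ≤
      occ h A j + (if occ h A j = 1 then 1 else 0) := by
    intro j
    split_ifs with ha hb hb
    · omega
    · have : occ h A j ≠ 0 := by
        rw [mem_biUnion] at ha
        obtain ⟨r, hr, hj⟩ := ha
        rw [mem_image] at hj
        obtain ⟨t, -, ht⟩ := hj
        unfold occ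
        intro h0
        rw [sum_eq_zero_iff] at h0
        have h4 := h0 r hr
        rw [Nat.add_eq_zero_iff] at h4
        have h5 := (sum_eq_zero_iff.1 h4.2) t (mem_univ _)
        simp [ht] at h5
      omega
    · omega
    · omega
  have h4 : ∑ j, (if j ∈ A.biUnion (fun r => univ.image (h r)) then 2 else 0) ≤
      ∑ j, (occ h A j + (if occ h A j = 1 then 1 else 0)) := sum_le_sum (fun j _ => h3 j)
  rw [sum_add_distrib, h2, ← sum_filter, ← sum_filter, sum_const, sum_const, smul_eq_mul,
    smul_eq_mul, filter_mem_eq_inter, univ_inter] at h4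
  have h5 : (univ.filter (fun j => occ h A j = 1)).card ≤
      (univ.filter (fun j => (∑ r ∈ A, lin h r) (Pi.single j 1) ≠ 0)).card := by
    apply card_le_card
    intro j hj
    rw [mem_filter] at hj ⊢
    refine ⟨mem_univ _, ?_⟩
    rw [sum_lin_single, hj.2]
    simp
  omega

/-- In every linear code some word has a weight of at least half of the dimension. -/
theorem exists_heavy {Q : Type} [Fintype Q] (V : Submodule (ZMod 2) (Q → ZMod 2)) :
    ∃ v ∈ V, finrank (ZMod 2) V ≤ 2 * (univ.filter (fun i => v i ≠ 0)).card := by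
  classical
  by_contra hcon
  push Not at hcon
  obtain ⟨I0, hI0⟩ : ∃ I0 : Finset Q, I0 = univ.filter (fun i => ∃ v ∈ V, v i ≠ 0) := ⟨_, rfl⟩
  -- the dimension is at most the number of the positions that occur
  have hdim : finrank (ZMod 2) V ≤ I0.card := by
    let f : V →ₗ[ZMod 2] (I0 → ZMod 2) :=
      { toFun := fun v i => v.1 i.1
        map_add' := fun _ _ => rfl
        map_smul' := fun _ _ => rfl }
    have hf : Function.Injective f := by
      intro v w hvw
      apply Subtype.ext
      funext i
      by_cases hi : i ∈ I0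
      · exact congrFun hvw ⟨i, hi⟩
      · rw [hI0, mem_filter] at hi
        push Not at hi
        rw [hi (mem_univ _) v.1 v.2, hi (mem_univ _) w.1 w.2]
    have := LinearMap.finrank_le_finrank_of_injective hf
    rwa [finrank_fintype_fun_eq_card, Fintype.card_coe] at this
  -- double counting
  have : Fintype V := Fintype.ofFinite V
  have h1 : ∑ v : V, 2 * (univ.filter (fun i => v.1 i ≠ 0)).card = Fintype.card V * I0.card := by
    have e1 : ∀ v : V, (univ.filter (fun i => v.1 i ≠ 0)).card =
        ∑ i ∈ I0, if v.1 i ≠ 0 then 1 else 0 := by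
      intro v
      rw [card_filter]
      symm
      apply sum_subset (subset_univ _)
      intro i _ hi
      rw [hI0, mem_filter] at hi
      push Not at hi
      rw [if_neg]
      rw [not_not]
      exact hi (mem_univ _) v.1 v.2
    simp_rw [e1]
    rw [← mul_sum, sum_comm, mul_sum]
    have e2 : ∀ i ∈ I0, 2 * ∑ v : V, (if v.1 i ≠ 0 then 1 else 0) = Fintype.card V := by
      intro i hi
      rw [hI0, mem_filter] at hi
      obtain ⟨w, hw, hwi⟩ := hi.2
      have e3 : (univ.filter (fun v : V => v.1 i ≠ 0)).card =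
          (univ.filter (fun v : V => ¬ v.1 i ≠ 0)).card := by
        have two : ∀ a : ZMod 2, a ≠ 0 → a = 1 := by decide
        have w1 : w i = 1 := two _ hwi
        have ww : (1 : ZMod 2) + 1 = 0 := by decide
        have hinv : ∀ v : V, v + ⟨w, hw⟩ + ⟨w, hw⟩ = v := by
          intro v
          apply Subtype.ext
          funext i
          simp only [Submodule.coe_add, Pi.add_apply]
          rw [add_assoc, CharTwo.add_self_eq_zero, add_zero]
        refine card_bij' (fun v _ => v + ⟨w, hw⟩) (fun v _ => v + ⟨w, hw⟩) ?_ ?_ ?_ ?_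
        · intro v hv
          rw [mem_filter] at hv ⊢
          refine ⟨mem_univ _, ?_⟩
          rw [not_not]
          simp only [Submodule.coe_add, Pi.add_apply]
          rw [w1, two _ hv.2, ww]
        · intro v hv
          rw [mem_filter] at hv ⊢
          refine ⟨mem_univ _, ?_⟩
          simp only [Submodule.coe_add, Pi.add_apply]
          rw [not_not.1 hv.2, w1, zero_add]
          exact one_ne_zero
        · intro v _; exact hinv v
        · intro v _; exact hinv v
      have e4 := card_filter_add_card_filter_not (s := (univ : Finset V))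
        (fun v : V => v.1 i ≠ 0)
      rw [← card_filter]
      rw [card_univ] at e4
      omega
    rw [sum_congr rfl e2, sum_const, smul_eq_mul, mul_comm]
  have h2 : ∑ v : V, 2 * (univ.filter (fun i => v.1 i ≠ 0)).card < ∑ _v : V, I0.card := by
    apply sum_lt_sum_of_nonempty ⟨0, mem_univ _⟩
    intro v _
    exact lt_of_lt_of_le (hcon v.1 v.2) hdim
  rw [h1, sum_const, card_univ, smul_eq_mul] at h2
  omega

theorem card_submodule (S : Submodule (ZMod 2) (Fin n → ZMod 2)) :
    Nat.card S = 2 ^ finrank (ZMod 2) S := by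
  have : Fintype S := Fintype.ofFinite S
  rw [Nat.card_eq_fintype_card, Module.card_eq_pow_finrank (K := ZMod 2) (V := S), ZMod.card]

open Classical in
theorem card_coann (G : Finset (Dual (ZMod 2) (Fin n → ZMod 2))) :
    (univ.filter (fun y : Fin n → ZMod 2 => ∀ φ ∈ G, φ y = 0)).card *
      2 ^ finrank (ZMod 2) (Submodule.span (ZMod 2) (G : Set (Dual (ZMod 2) (Fin n → ZMod 2)))) =
      2 ^ n := by
  obtain ⟨S, hS⟩ : ∃ S, S = Submodule.span (ZMod 2)
    (G : Set (Dual (ZMod 2) (Fin n → ZMod 2))) := ⟨_, rfl⟩
  rw [← hS]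
  have h1 : (univ.filter (fun y : Fin n → ZMod 2 => ∀ φ ∈ G, φ y = 0)).card =
      Nat.card S.dualCoannihilator := by
    rw [← Fintype.card_subtype, ← Nat.card_eq_fintype_card]
    apply Nat.card_congr
    apply Equiv.subtypeEquivRight
    intro y
    rw [Submodule.mem_dualCoannihilator]
    constructor
    · intro h φ hφ
      rw [hS] at hφ
      induction hφ using Submodule.span_induction with
      | mem φ hφ => exact h φ hφ
      | zero => simp
      | add a b _ _ ha hb => rw [LinearMap.add_apply, ha, hb, add_zero]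
      | smul c a _ ha => rw [LinearMap.smul_apply, ha, smul_zero]
    · intro h φ hφ
      refine h φ ?_
      rw [hS]
      exact Submodule.subset_span hφ
  rw [h1, card_submodule, ← pow_add]
  congr 1
  have h2 := Subspace.finrank_add_finrank_dualCoannihilator_eq S
  rw [finrank_fintype_fun_eq_card, Fintype.card_fin] at h2
  rw [add_comm]
  exact h2

/-- The unknown `j` as a functional. -/
noncomputable def coord (j : Fin n) : Dual (ZMod 2) (Fin n → ZMod 2) := LinearMap.proj j

theorem coord_apply (j : Fin n) (y : Fin n → ZMod 2) : coord j y = y j := rfl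

theorem coord_inj : Function.Injective (coord (n := n)) := by
  intro i j hij
  by_contra h
  have := congrArg (fun φ : Dual (ZMod 2) (Fin n → ZMod 2) => φ (Pi.single i 1)) hij
  simp only [coord_apply, Pi.single_apply] at this
  rw [if_pos trivial, if_neg (fun h' => h h'.symm)] at this
  exact one_ne_zero this

theorem finrank_coord (R : Finset (Fin n)) :
    finrank (ZMod 2) (Submodule.span (ZMod 2) (coord '' (R : Set (Fin n)))) = R.card := by
  classical
  have hli : LinearIndependent (ZMod 2) (fun j : R => coord (j : Fin n)) := by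
    rw [Fintype.linearIndependent_iff]
    intro g hg i
    have := congrArg (fun φ : Dual (ZMod 2) (Fin n → ZMod 2) => φ (Pi.single i.1 1)) hg
    simp only [LinearMap.sum_apply, LinearMap.smul_apply, coord_apply, smul_eq_mul,
      LinearMap.zero_apply] at this
    rw [Finset.sum_eq_single i] at this
    · simpa using this
    · intro b _ hb
      rw [Pi.single_apply, if_neg (fun h => hb (Subtype.ext h)), mul_zero]
    · intro h; exact absurd (mem_univ _) h
  have h1 := finrank_span_eq_card hli
  rw [Fintype.card_coe] at h1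
  have h2 : coord '' (R : Set (Fin n)) = Set.range (fun j : R => coord (j : Fin n)) := by
    ext φ
    constructor
    · rintro ⟨j, hj, rfl⟩
      exact ⟨⟨j, hj⟩, rfl⟩
    · rintro ⟨j, rfl⟩
      exact ⟨j.1, j.2, rfl⟩
  rw [h2, h1]

/-- Combinations of few equations contain few combinations of given unknowns. -/
theorem finrank_inf {h : Sys n} (hE : Expands h) (Q : Finset (Row n))
    (hQ : Q.card * 2 ^ 22 ≤ n) (R : Finset (Fin n)) :
    3 * finrank (ZMod 2) (Submodule.span (ZMod 2) (lin h '' (Q : Set (Row n))) ⊓
      Submodule.span (ZMod 2) (coord '' (R : Set (Fin n))) :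
        Submodule (ZMod 2) (Dual (ZMod 2) (Fin n → ZMod 2))) ≤ 2 * R.card := by
  classical
  let Φ : (Q → ZMod 2) →ₗ[ZMod 2] Dual (ZMod 2) (Fin n → ZMod 2) :=
    { toFun := fun v => ∑ r : Q, v r • lin h r
      map_add' := fun v w => by simp [add_smul, sum_add_distrib]
      map_smul' := fun c v => by simp [mul_smul, smul_sum] }
  have hΦ : ∀ v, Φ v = ∑ r : Q, v r • lin h r := fun _ => rfl
  let V : Submodule (ZMod 2) (Q → ZMod 2) :=
    { carrier := {v | ∀ j, j ∉ R → Φ v (Pi.single j 1) = 0}
      add_mem' := by
        intro a b ha hb j hj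
        rw [map_add, LinearMap.add_apply, ha j hj, hb j hj, add_zero]
      zero_mem' := by
        intro j _
        rw [map_zero, LinearMap.zero_apply]
      smul_mem' := by
        intro c v hv j hj
        rw [map_smul, LinearMap.smul_apply, hv j hj, smul_zero] }
  have hle : (Submodule.span (ZMod 2) (lin h '' (Q : Set (Row n))) ⊓
      Submodule.span (ZMod 2) (coord '' (R : Set (Fin n))) :
        Submodule (ZMod 2) (Dual (ZMod 2) (Fin n → ZMod 2))) ≤ V.map Φ := by
    rintro u ⟨h1, h2⟩
    have h3 : ∃ v, Φ v = u := by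
      have : Submodule.span (ZMod 2) (lin h '' (Q : Set (Row n))) ≤ LinearMap.range Φ := by
        rw [Submodule.span_le]
        rintro _ ⟨r, hr, rfl⟩
        refine ⟨Pi.single ⟨r, hr⟩ 1, ?_⟩
        rw [hΦ, Finset.sum_eq_single ⟨r, hr⟩]
        · simp
        · intro b _ hb
          rw [Pi.single_apply, if_neg hb, zero_smul]
        · intro h; exact absurd (mem_univ _) h
      exact this h1
    obtain ⟨v, rfl⟩ := h3
    refine ⟨v, ?_, rfl⟩
    intro j hj
    have h4 : ∀ φ ∈ Submodule.span (ZMod 2) (coord '' (R : Set (Fin n))),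
        φ (Pi.single j 1) = 0 := by
      intro φ hφ
      induction hφ using Submodule.span_induction with
      | mem φ hφ =>
        obtain ⟨i, hi, rfl⟩ := hφ
        rw [coord_apply, Pi.single_apply, if_neg]
        rintro rfl
        exact hj hi
      | zero => simp
      | add a b _ _ ha hb => rw [LinearMap.add_apply, ha, hb, add_zero]
      | smul c a _ ha => rw [LinearMap.smul_apply, ha, smul_zero]
    exact h4 _ h2
  have h1 := Submodule.finrank_mono hle
  have h2 := Submodule.finrank_map_le Φ V
  obtain ⟨v, hv, h3⟩ := exists_heavy V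
  obtain ⟨A, hA⟩ : ∃ A : Finset (Row n), A = (univ.filter (fun i : Q => v i ≠ 0)).map
    (Function.Embedding.subtype _) := ⟨_, rfl⟩
  have hAQ : A ⊆ Q := by
    intro r hr
    rw [hA, mem_map] at hr
    obtain ⟨i, -, rfl⟩ := hr
    exact i.2
  have hAc : A.card = (univ.filter (fun i : Q => v i ≠ 0)).card := by
    rw [hA, card_map]
  have hsum : ∑ r ∈ A, lin h r = Φ v := by
    rw [hΦ, hA, sum_map, sum_filter]
    refine sum_congr rfl (fun i _ => ?_)
    have two : ∀ a : ZMod 2, a ≠ 0 → a = 1 := by decide
    by_cases hi : v i = 0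
    · rw [if_neg (by rw [not_not]; exact hi), hi, zero_smul]
    · rw [if_pos hi, two _ hi, one_smul]
      rfl
  have h4 := expands_unique hE A (le_trans (Nat.mul_le_mul_right _ (card_le_card hAQ)) hQ)
  have h5 : (univ.filter (fun j => (∑ r ∈ A, lin h r) (Pi.single j 1) ≠ 0)).card ≤ R.card := by
    apply card_le_card
    intro j hj
    rw [mem_filter] at hj
    by_contra hjR
    apply hj.2
    rw [hsum]
    exact hv j hjR
  omega

open Classical in
/-- **Few right hand sides tell little about the unknowns**, homogeneous form. -/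
theorem count_hom {h : Sys n} (hE : Expands h) (Q : Finset (Row n))
    (hQ : Q.card * 2 ^ 22 ≤ n) (R : Finset (Fin n)) :
    (univ.filter (fun y : Fin n → ZMod 2 => (∀ r ∈ Q, lin h r y = 0) ∧
      ∀ j ∈ R, y j = 0)).card * 2 ^ ((R.card + 2) / 3) ≤
    (univ.filter (fun y : Fin n → ZMod 2 => ∀ r ∈ Q, lin h r y = 0)).card := by
  have h1 := card_coann (Q.image (lin h))
  have h2 := card_coann (Q.image (lin h) ∪ R.image coord)
  have e1 : (univ.filter (fun y : Fin n → ZMod 2 => ∀ φ ∈ Q.image (lin h), φ y = 0)) =
      univ.filter (fun y : Fin n → ZMod 2 => ∀ r ∈ Q, lin h r y = 0) := by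
    apply filter_congr
    intro y _
    simp only [mem_image, forall_exists_index, and_imp, forall_apply_eq_imp_iff₂]
  have e2 : (univ.filter (fun y : Fin n → ZMod 2 =>
      ∀ φ ∈ Q.image (lin h) ∪ R.image coord, φ y = 0)) =
      univ.filter (fun y : Fin n → ZMod 2 => (∀ r ∈ Q, lin h r y = 0) ∧ ∀ j ∈ R, y j = 0) := by
    apply filter_congr
    intro y _
    simp only [mem_union, mem_image, or_imp, forall_and, forall_exists_index, and_imp,
      forall_apply_eq_imp_iff₂, coord_apply]
  rw [e1] at h1
  rw [e2] at h2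
  rw [coe_image] at h1
  rw [coe_union, coe_image, coe_image, Submodule.span_union] at h2
  have h3 := Submodule.finrank_sup_add_finrank_inf_eq
    (Submodule.span (ZMod 2) (lin h '' (Q : Set (Row n))))
    (Submodule.span (ZMod 2) (coord '' (R : Set (Fin n))))
  rw [finrank_coord] at h3
  have h4 := finrank_inf hE Q hQ R
  obtain ⟨a, ha⟩ : ∃ a, a = finrank (ZMod 2)
    (Submodule.span (ZMod 2) (lin h '' (Q : Set (Row n)))) := ⟨_, rfl⟩
  obtain ⟨b, hb⟩ : ∃ b, b = finrank (ZMod 2)
    (Submodule.span (ZMod 2) (lin h '' (Q : Set (Row n))) ⊔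
      Submodule.span (ZMod 2) (coord '' (R : Set (Fin n))) :
        Submodule (ZMod 2) (Dual (ZMod 2) (Fin n → ZMod 2))) := ⟨_, rfl⟩
  rw [← ha] at h1 h3
  rw [← hb] at h2 h3
  have h5 : a + (R.card + 2) / 3 ≤ b := by omega
  have h6 : 0 < 2 ^ a := by positivity
  refine Nat.le_of_mul_le_mul_right ?_ h6
  rw [h1, ← h2, mul_assoc, ← pow_add]
  apply Nat.mul_le_mul_left
  apply Nat.pow_le_pow_right (by norm_num)
  omega

open Classical in
/-- **Few right hand sides tell little about the unknowns.** -/
theorem count_coset {h : Sys n} (hE : Expands h) (Q : Finset (Row n))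
    (hQ : Q.card * 2 ^ 22 ≤ n) (R : Finset (Fin n)) (y₀ : Fin n → ZMod 2) :
    2 ^ ((R.card + 2) / 3) * (univ.filter (fun y : Fin n → ZMod 2 =>
      (∀ r ∈ Q, lin h r y = lin h r y₀) ∧ ∀ j ∈ R, y j = y₀ j)).card ≤
    (univ.filter (fun y : Fin n → ZMod 2 => ∀ r ∈ Q, lin h r y = lin h r y₀)).card := by
  have h1 := count_hom hE Q hQ R
  rw [mul_comm] at h1
  refine le_trans (le_of_eq (congrArg _ ?_)) (h1.trans (le_of_eq ?_))
  · refine card_bij' (fun y _ => y - y₀) (fun y _ => y + y₀) ?_ ?_ ?_ ?_
    · intro y hy
      rw [mem_filter] at hy ⊢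
      refine ⟨mem_univ _, fun r hr => ?_, fun j hj => ?_⟩
      · rw [map_sub, hy.2.1 r hr, sub_self]
      · rw [Pi.sub_apply, hy.2.2 j hj, sub_self]
    · intro y hy
      rw [mem_filter] at hy ⊢
      refine ⟨mem_univ _, fun r hr => ?_, fun j hj => ?_⟩
      · rw [map_add, hy.2.1 r hr, zero_add]
      · rw [Pi.add_apply, hy.2.2 j hj, zero_add]
    · intro y _; simp
    · intro y _; simp
  · refine card_bij' (fun y _ => y + y₀) (fun y _ => y - y₀) ?_ ?_ ?_ ?_
    · intro y hy
      rw [mem_filter] at hy ⊢
      refine ⟨mem_univ _, fun r hr => ?_⟩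
      rw [map_add, hy.2 r hr, zero_add]
    · intro y hy
      rw [mem_filter] at hy ⊢
      refine ⟨mem_univ _, fun r hr => ?_⟩
      rw [map_sub, hy.2 r hr, sub_self]
    · intro y _; simp
    · intro y _; simp

end Pool.Agent.TH706.ST
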