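import Pool.Agent.TH706.ST.MulAdd
import Pool.Agent.TH706.ST.Chain
import Pool.Agent.TH706.ST.Find

/-!
# 2-CNF formulas with `A X + B` models
-/

set_option autoImplicit false

open Finset

namespace Pool.Agent.TH706.ST

open Pool.Agent.W896.MO

/-- The bits of a 2-CNF formula with `M` clauses, in which the names of the variables are words of
`ℓ` bits: the bits `(c, p, some j)` form the name of the variable in position `p` of the clause
`c`, and the bit `(c, p, none)` is the sign of this literal. -/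
abbrev Idx2 (M ℓ : ℕ) : Type := Fin M × Fin 2 × Option (Fin ℓ)

/-- The name of the variable in position `p` of the clause `c`. -/
def name2 {M ℓ : ℕ} (w : Idx2 M ℓ → Bool) (c : Fin M) (p : Fin 2) : Fin ℓ → Bool :=
  fun j => w (c, p, some j)

/-- The variables that occur in the formula `w`. -/
abbrev Var2 {M ℓ : ℕ} (w : Idx2 M ℓ → Bool) : Type :=
  {v : Fin ℓ → Bool // ∃ c p, name2 w c p = v}

/-- The number of the models (satisfying assignments of the variables that occur) of `w`. -/
noncomputable def models {M ℓ : ℕ} (w : Idx2 M ℓ → Bool) : ℕ :=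
  Nat.card {α : Var2 w → Bool // ∀ c, ∃ p, α ⟨name2 w c p, c, p, rfl⟩ = w (c, p, none)}

/-- With at most `T` reads and writes the program computes the number of the models of `w`: it
writes its binary digits, and no wrong digits. (There are at most `2 M` variables; the digits
beyond the leading one need not be written.) -/
def Counts {M ℓ : ℕ} (P : Prog (Idx2 M ℓ) (Fin (2 * M + 1)) Bool) (w : Idx2 M ℓ → Bool)
    (T : ℕ) : Prop :=
  ∃ l, P.Runs w P.start [] l ∧ l.length ≤ T ∧
    (∀ (i : Fin (2 * M + 1)) (b : Bool), .inr (i, b) ∈ l → b = (models w).testBit i.val) ∧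
    ∀ i : Fin (2 * M + 1), i.val < (models w).size → .inr (i, (models w).testBit i.val) ∈ l

variable {m : ℕ}

/-- The variables: the states and the free variables of three chains. -/
abbrev V2 (m : ℕ) : Type := Fin 3 × (Fin (2 * m + 2) ⊕ Fin (2 * m + 1))

/-- The clauses. -/
abbrev C2 (m : ℕ) : Type := (Fin 3 × Fin (2 * m + 1) × Fin 3) ⊕ Fin 7

/-- A state. -/
def st (t : Fin 3) (i : Fin (2 * m + 2)) : V2 m := (t, .inl i)

/-- A free variable. -/
def zz (t : Fin 3) (i : Fin (2 * m + 1)) : V2 m := (t, .inr i)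

/-- The literals of the clauses. -/
def cl2 (d : Fin 3 → Fin (2 * m + 1) → Bool) : C2 m → Fin 2 → V2 m × Bool
  | .inl (t, i, 0), p => if p = 0 then (st t i.castSucc, false) else (st t i.succ, true)
  | .inl (t, i, 1), p => if p = 0 then (st t i.succ, false) else (zz t i, true)
  | .inl (t, i, 2), p => if p = 0 then (st t i.castSucc, !(d t i)) else (st t i.succ, d t i)
  | .inr 0, _ => (st 0 (Fin.last _), true)
  | .inr 1, _ => (st 1 (Fin.last _), true)
  | .inr 2, _ => (st 2 (Fin.last _), true)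
  | .inr 3, p => if p = 0 then (st 0 0, false) else (st 1 0, true)
  | .inr 4, p => if p = 0 then (st 0 0, true) else (st 1 0, false)
  | .inr 5, p => if p = 0 then (st 0 0, true) else (st 2 0, true)
  | .inr 6, p => if p = 0 then (st 0 0, false) else (st 2 0, false)

theorem exists_two (Q : Fin 2 → Prop) : (∃ p, Q p) ↔ Q 0 ∨ Q 1 := Fin.exists_fin_two

theorem step_clauses (δ a z b : Bool) :
    ((a = false ∨ b = true) ∧ (b = false ∨ z = true) ∧ (a = (!δ) ∨ b = δ)) ↔ Step δ a z b := by
  cases δ <;> cases a <;> cases z <;> cases b <;> decide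

theorem end_clauses (a b c : Bool) :
    ((a = false ∨ b = true) ∧ (a = true ∨ b = false) ∧ (a = true ∨ c = true) ∧
      (a = false ∨ c = false)) ↔ b = a ∧ c = !a := by
  cases a <;> cases b <;> cases c <;> decide

theorem cl2_iff (d : Fin 3 → Fin (2 * m + 1) → Bool) (β : V2 m → Bool) :
    (∀ c, ∃ p, β (cl2 d c p).1 = (cl2 d c p).2) ↔
      (∀ t i, Step (d t i) (β (st t i.castSucc)) (β (zz t i)) (β (st t i.succ))) ∧
      (∀ t, β (st t (Fin.last _)) = true) ∧ β (st 1 0) = β (st 0 0) ∧
        β (st 2 0) = !β (st 0 0) := by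
  constructor
  · intro H
    refine ⟨fun t i => ?_, fun t => ?_, ?_⟩
    · rw [← step_clauses]
      exact ⟨(exists_two _).1 (H (.inl (t, i, 0))), (exists_two _).1 (H (.inl (t, i, 1))),
        (exists_two _).1 (H (.inl (t, i, 2)))⟩
    · fin_cases t
      · obtain ⟨p, hp⟩ := H (.inr 0)
        exact hp
      · obtain ⟨p, hp⟩ := H (.inr 1)
        exact hp
      · obtain ⟨p, hp⟩ := H (.inr 2)
        exact hp
    · rw [← end_clauses]
      exact ⟨(exists_two _).1 (H (.inr 3)), (exists_two _).1 (H (.inr 4)),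
        (exists_two _).1 (H (.inr 5)), (exists_two _).1 (H (.inr 6))⟩
  · rintro ⟨H1, H2, H3⟩ c
    rw [← end_clauses] at H3
    match c with
    | .inl (t, i, q) =>
      have h := (step_clauses _ _ _ _).2 (H1 t i)
      fin_cases q
      · exact (exists_two _).2 h.1
      · exact (exists_two _).2 h.2.1
      · exact (exists_two _).2 h.2.2
    | .inr q =>
      fin_cases q
      · exact ⟨0, H2 0⟩
      · exact ⟨0, H2 1⟩
      · exact ⟨0, H2 2⟩
      · exact (exists_two _).2 H3.1
      · exact (exists_two _).2 H3.2.1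
      · exact (exists_two _).2 H3.2.2.1
      · exact (exists_two _).2 H3.2.2.2

/-- The models of the clauses. -/
abbrev Mod2 (d : Fin 3 → Fin (2 * m + 1) → Bool) : Type :=
  {β : V2 m → Bool // ∀ c, ∃ p, β (cl2 d c p).1 = (cl2 d c p).2}

/-- An assignment from its values on the three chains. -/
def glue (p0 p1 p2 : (Fin (2 * m + 2) → Bool) × (Fin (2 * m + 1) → Bool)) : V2 m → Bool
  | (0, .inl i) => p0.1 i
  | (0, .inr i) => p0.2 i
  | (1, .inl i) => p1.1 i
  | (1, .inr i) => p1.2 i
  | (2, .inl i) => p2.1 i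
  | (2, .inr i) => p2.2 i

/-- The models consist of the solutions of the three chains. -/
def modEquiv (d : Fin 3 → Fin (2 * m + 1) → Bool) : Mod2 d ≃
    Σ σ : Bool, ChSol (2 * m + 1) (d 0) σ true × ChSol (2 * m + 1) (d 1) σ true ×
      ChSol (2 * m + 1) (d 2) (!σ) true where
  toFun β := ⟨β.1 (st 0 0),
    ⟨(fun i => β.1 (st 0 i), fun i => β.1 (zz 0 i)), rfl, ((cl2_iff d β.1).1 β.2).2.1 0,
      ((cl2_iff d β.1).1 β.2).1 0⟩,
    ⟨(fun i => β.1 (st 1 i), fun i => β.1 (zz 1 i)), ((cl2_iff d β.1).1 β.2).2.2.1,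
      ((cl2_iff d β.1).1 β.2).2.1 1, ((cl2_iff d β.1).1 β.2).1 1⟩,
    ⟨(fun i => β.1 (st 2 i), fun i => β.1 (zz 2 i)), ((cl2_iff d β.1).1 β.2).2.2.2,
      ((cl2_iff d β.1).1 β.2).2.1 2, ((cl2_iff d β.1).1 β.2).1 2⟩⟩
  invFun q := ⟨glue q.2.1.1 q.2.2.1.1 q.2.2.2.1, by
    refine (cl2_iff d (glue q.2.1.1 q.2.2.1.1 q.2.2.2.1)).2 ⟨?_, ?_, ?_, ?_⟩
    · intro t i
      fin_cases t
      · exact q.2.1.2.2.2 i
      · exact q.2.2.1.2.2.2 i
      · exact q.2.2.2.2.2.2 i
    · intro t
      fin_cases t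
      · exact q.2.1.2.2.1
      · exact q.2.2.1.2.2.1
      · exact q.2.2.2.2.2.1
    · change q.2.2.1.1.1 0 = q.2.1.1.1 0
      rw [q.2.2.1.2.1, q.2.1.2.1]
    · change q.2.2.2.1.1 0 = !q.2.1.1.1 0
      rw [q.2.2.2.2.1, q.2.1.2.1]⟩
  left_inv β := by
    apply Subtype.ext
    funext v
    match v with
    | (0, .inl i) => rfl
    | (0, .inr i) => rfl
    | (1, .inl i) => rfl
    | (1, .inr i) => rfl
    | (2, .inl i) => rfl
    | (2, .inr i) => rfl
  right_inv q := by
    obtain ⟨σ, ⟨⟨s0, z0⟩, h0⟩, ⟨⟨s1, z1⟩, h1⟩, ⟨⟨s2, z2⟩, h2⟩⟩ := q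
    obtain ⟨e0, e0'⟩ := h0
    subst e0
    rfl

theorem card_mod2 (d : Fin 3 → Fin (2 * m + 1) → Bool) : Nat.card (Mod2 d) =
    (∑ i, if d 0 i = true then 2 ^ i.val else 0) * (∑ i, if d 1 i = true then 2 ^ i.val else 0) +
      ∑ i, if d 2 i = true then 2 ^ i.val else 0 := by
  rw [Nat.card_congr (modEquiv d), Nat.card_eq_fintype_card, Fintype.card_sigma,
    Fintype.univ_bool, sum_insert (by decide), sum_singleton, Fintype.card_prod,
    Fintype.card_prod, Fintype.card_prod, Fintype.card_prod]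
  have h0 := chN_val (2 * m + 1) (d 0)
  have h1 := chN_val (2 * m + 1) (d 1)
  have h2 := chN_val (2 * m + 1) (d 2)
  unfold chN at h0 h1 h2
  simp only [Bool.not_true, Bool.not_false]
  rw [h0.2.1, h1.2.1, h2.2.2.2, h0.2.2.2, h1.2.2.2, h2.2.1]
  ring

/-! ### The instances -/

variable {M ℓ : ℕ}

/-- The digits; the leading one is `1`. -/
def dgt (y : Tri m) (t : Fin 3) (i : Fin (2 * m + 1)) : Bool :=
  if i.val = 2 * m then true else dig (y t) i.val

theorem sum_dgt (y : Tri m) (t : Fin 3) :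
    (∑ i, if dgt y t i = true then 2 ^ i.val else 0) = (y t).val + 2 ^ (2 * m) := by
  have hN : NeZero (2 ^ (2 * m)) := ⟨by positivity⟩
  rw [Fin.sum_univ_castSucc]
  have h1 : ∀ i : Fin (2 * m), dgt y t i.castSucc = (y t).val.testBit i.val := by
    intro i
    unfold dgt
    rw [if_neg (by
      rw [Fin.val_castSucc]
      exact i.isLt.ne)]
    rfl
  have h2 : dgt y t (Fin.last _) = true := by
    unfold dgt
    rw [if_pos (Fin.val_last _)]
  simp only [h1, h2, Fin.val_castSucc, Fin.val_last, if_true]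
  rw [sum_digits, Nat.mod_eq_of_lt (ZMod.val_lt _)]

/-- The formula. -/
def inst2 (nm : V2 m → Fin ℓ → Bool) (idx : Fin M → C2 m)
    (d : Fin 3 → Fin (2 * m + 1) → Bool) : Idx2 M ℓ → Bool
  | (c, p, some j) => nm (cl2 d (idx c) p).1 j
  | (c, p, none) => (cl2 d (idx c) p).2

theorem occurs2 (nm : V2 m → Fin ℓ → Bool) {idx : Fin M → C2 m}
    (hidx : Function.Surjective idx) (d : Fin 3 → Fin (2 * m + 1) → Bool) (v : V2 m) :
    ∃ c p, name2 (inst2 nm idx d) c p = nm v := by
  match v with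
  | (t, .inl i) =>
    refine Fin.lastCases ?_ (fun i => ?_) i
    · obtain ⟨c, hc⟩ := hidx (.inl (t, Fin.last _, 0))
      refine ⟨c, 1, ?_⟩
      funext j
      change nm (cl2 d (idx c) 1).1 j = _
      rw [hc]
      rfl
    · obtain ⟨c, hc⟩ := hidx (.inl (t, i, 0))
      refine ⟨c, 0, ?_⟩
      funext j
      change nm (cl2 d (idx c) 0).1 j = _
      rw [hc]
      rfl
  | (t, .inr i) =>
    obtain ⟨c, hc⟩ := hidx (.inl (t, i, 1))
    refine ⟨c, 1, ?_⟩
    funext j
    change nm (cl2 d (idx c) 1).1 j = _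
    rw [hc]
    rfl

theorem models_inst {nm : V2 m → Fin ℓ → Bool} (hnm : Function.Injective nm)
    {idx : Fin M → C2 m} (hidx : Function.Surjective idx)
    (d : Fin 3 → Fin (2 * m + 1) → Bool) :
    models (inst2 nm idx d) = Nat.card (Mod2 d) := by
  let e : V2 m ≃ Var2 (inst2 nm idx d) :=
    Equiv.ofBijective (fun v => ⟨nm v, occurs2 nm hidx d v⟩)
      ⟨fun v v' h => hnm (congrArg Subtype.val h), fun u => by
        obtain ⟨_, c, p, rfl⟩ := u
        exact ⟨(cl2 d (idx c) p).1, rfl⟩⟩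
  unfold models
  refine Nat.card_congr (Equiv.subtypeEquiv (Equiv.arrowCongr e.symm (Equiv.refl _)) ?_)
  intro α
  have key : ∀ c p, α ⟨name2 (inst2 nm idx d) c p, c, p, rfl⟩ =
      (Equiv.arrowCongr e.symm (Equiv.refl _)) α (cl2 d (idx c) p).1 := by
    intro c p
    rfl
  constructor
  · intro H c
    obtain ⟨c', rfl⟩ := hidx c
    obtain ⟨p, hp⟩ := H c'
    refine ⟨p, ?_⟩
    rw [← key, hp]
    rfl
  · intro H c
    obtain ⟨p, hp⟩ := H (idx c)
    refine ⟨p, ?_⟩
    rw [key, hp]
    rfl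

/-- The formula that belongs to `y`. -/
def form2 (nm : V2 m → Fin ℓ → Bool) (idx : Fin M → C2 m) (y : Tri m) : Idx2 M ℓ → Bool :=
  inst2 nm idx (dgt y)

theorem models_form {nm : V2 m → Fin ℓ → Bool} (hnm : Function.Injective nm)
    {idx : Fin M → C2 m} (hidx : Function.Surjective idx) (y : Tri m) :
    models (form2 nm idx y) = ((y 0).val + 2 ^ (2 * m)) * ((y 1).val + 2 ^ (2 * m)) +
      ((y 2).val + 2 ^ (2 * m)) := by
  unfold form2
  rw [models_inst hnm hidx, card_mod2, sum_dgt, sum_dgt, sum_dgt]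

theorem models_bit {nm : V2 m → Fin ℓ → Bool} (hnm : Function.Injective nm)
    {idx : Fin M → C2 m} (hidx : Function.Surjective idx) (y : Tri m) {i : ℕ} (hi : i < 2 * m) :
    (models (form2 nm idx y)).testBit i = dig (muladd y) i := by
  have hN : NeZero (2 ^ (2 * m)) := ⟨by positivity⟩
  rw [models_form hnm hidx]
  have h1 : ∀ u : ℕ, u.testBit i = (u % 2 ^ (2 * m)).testBit i := by
    intro u
    rw [Nat.testBit_mod_two_pow]
    simp [hi]
  have h2 : (((y 0).val + 2 ^ (2 * m)) * ((y 1).val + 2 ^ (2 * m)) +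
      ((y 2).val + 2 ^ (2 * m))) % 2 ^ (2 * m) = (muladd y).val := by
    have h3 : ((((y 0).val + 2 ^ (2 * m)) * ((y 1).val + 2 ^ (2 * m)) +
      ((y 2).val + 2 ^ (2 * m)) : ℕ) : ZMod (2 ^ (2 * m))) = muladd y := by
      have h4 : ((2 ^ (2 * m) : ℕ) : ZMod (2 ^ (2 * m))) = 0 := ZMod.natCast_self _
      rw [Nat.cast_add, Nat.cast_mul, Nat.cast_add, Nat.cast_add, Nat.cast_add, h4,
        ZMod.natCast_zmod_val, ZMod.natCast_zmod_val, ZMod.natCast_zmod_val]
      unfold muladd
      ring
    rw [← h3, ZMod.val_natCast]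
  rw [h1, h2]
  rfl

theorem models_size {nm : V2 m → Fin ℓ → Bool} (hnm : Function.Injective nm)
    {idx : Fin M → C2 m} (hidx : Function.Surjective idx) (y : Tri m) {i : ℕ} (hi : i < 2 * m) :
    i < (models (form2 nm idx y)).size := by
  rw [Nat.lt_size, models_form hnm hidx]
  calc 2 ^ i ≤ 2 ^ (2 * m) := Nat.pow_le_pow_right (by norm_num) hi.le
    _ ≤ _ := by omega

/-- The digit which a bit of the formula depends on. -/
def kap2 (idx : Fin M → C2 m) : Idx2 M ℓ → Option (Fin 3 × Fin (2 * m))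
  | (_, _, some _) => none
  | (c, _, none) => match idx c with
    | .inl (t, i, 2) => if h : i.val < 2 * m then some (t, ⟨i.val, h⟩) else none
    | _ => none

theorem form2_kap (nm : V2 m → Fin ℓ → Bool) (idx : Fin M → C2 m) (i : Idx2 M ℓ)
    (y y' : Tri m) : form2 nm idx y' i = form2 nm idx y i ↔
      ∀ p, kap2 idx i = some p → dig (y' p.1) p.2 = dig (y p.1) p.2 := by
  obtain ⟨c, p, q⟩ := i
  match q with
  | some j =>
    constructor
    · intro _ r hr
      simp [kap2] at hr
    · intro _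
      change nm (cl2 _ (idx c) p).1 j = nm (cl2 _ (idx c) p).1 j
      congr 1
      generalize idx c = u
      match u with
      | .inl (t, i, 0) => rfl
      | .inl (t, i, 1) => rfl
      | .inl (t, i, 2) => fin_cases p <;> rfl
      | .inr 0 => rfl
      | .inr 1 => rfl
      | .inr 2 => rfl
      | .inr 3 => rfl
      | .inr 4 => rfl
      | .inr 5 => rfl
      | .inr 6 => rfl
  | none =>
    change (cl2 (dgt y') (idx c) p).2 = (cl2 (dgt y) (idx c) p).2 ↔
      ∀ r : Fin 3 × Fin (2 * m), (match idx c with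
        | .inl (t, i, 2) => if h : i.val < 2 * m then
            some ((t, ⟨i.val, h⟩) : Fin 3 × Fin (2 * m)) else none
        | _ => none) = some r → dig (y' r.1) r.2 = dig (y r.1) r.2
    generalize idx c = u
    match u with
    | .inl (t, i, 0) => simp [cl2]
    | .inl (t, i, 1) => simp [cl2]
    | .inl (t, i, 2) =>
      have hs : (cl2 (dgt y') (.inl (t, i, 2)) p).2 = (cl2 (dgt y) (.inl (t, i, 2)) p).2 ↔
          dgt y' t i = dgt y t i := by
        fin_cases p
        · change (!(dgt y' t i)) = (!(dgt y t i)) ↔ _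
          cases dgt y' t i <;> cases dgt y t i <;> simp
        · exact Iff.rfl
      rw [hs]
      by_cases h : i.val < 2 * m
      · simp only [h, dite_true, Option.some.injEq]
        unfold dgt
        rw [if_neg h.ne, if_neg h.ne]
        constructor
        · intro h1 r hr
          subst hr
          exact h1
        · intro h1
          exact h1 _ rfl
      · have h' : i.val = 2 * m := by have := i.isLt; omega
        simp only [h, dite_false, reduceCtorEq, false_implies, implies_true, iff_true]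
        unfold dgt
        rw [if_pos h', if_pos h']
    | .inr 0 => simp [cl2]
    | .inr 1 => simp [cl2]
    | .inr 2 => simp [cl2]
    | .inr 3 => simp [cl2]
    | .inr 4 => simp [cl2]
    | .inr 5 => simp [cl2]
    | .inr 6 => simp [cl2]

theorem form2_inj (nm : V2 m → Fin ℓ → Bool) {idx : Fin M → C2 m}
    (hidx : Function.Surjective idx) : Function.Injective (form2 (M := M) nm idx) := by
  have hN : NeZero (2 ^ (2 * m)) := ⟨by positivity⟩
  intro y y' hy
  funext t
  apply ZMod.val_injective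
  apply Nat.eq_of_testBit_eq
  intro i
  by_cases hi : i < 2 * m
  · obtain ⟨c, hc⟩ := hidx (.inl (t, ⟨i, by omega⟩, 2))
    have h1 := (form2_kap nm idx ((c, 0, none) : Idx2 M ℓ) y' y).1 (congrFun hy _) (t, ⟨i, hi⟩) (by
      simp [kap2, hc, hi])
    exact h1
  · have hlt : ∀ u : ZMod (2 ^ (2 * m)), u.val.testBit i = false := by
      intro u
      apply Nat.testBit_lt_two_pow
      exact (ZMod.val_lt u).trans_le (Nat.pow_le_pow_right (by norm_num) (by omega))
    rw [hlt, hlt]

end Pool.Agent.TH706.ST
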